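import Mathlib
import Pool.Agent.SymASQ.Groth

/-!
# Domination of quadratic forms bounded on the `ℓ_p` ball, `2 ≤ p ≤ 4`

If `|xᵀ M x| ≤ a ‖x‖_p²` for all `x` then there are weights `w ≥ 0` with
`∑ w_k x_k² ≤ ‖x‖_p²` and `|xᵀ M x| ≤ 2 √3 a ∑ w_k x_k²`.
-/

namespace Pool.Agent.InjP

open Finset Matrix
open Pool.Agent.SymASQ (sg rad rad_pair rad_four)

variable {d : ℕ}

/-- the `ℓ_p` norm -/
noncomputable def pn (p : ℝ) (x : Fin d → ℝ) : ℝ := (∑ i, |x i| ^ p) ^ (1 / p)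

lemma pn_nonneg (p : ℝ) (x : Fin d → ℝ) : 0 ≤ pn p x :=
  Real.rpow_nonneg (Finset.sum_nonneg fun _ _ => Real.rpow_nonneg (abs_nonneg _) _) _

/-- weights dominated by the square of the `ℓ_p` norm -/
def Wt (d : ℕ) (p : ℝ) : Set (Fin d → ℝ) :=
  {w | (∀ k, 0 ≤ w k) ∧ ∀ x : Fin d → ℝ, ∑ k, w k * x k ^ 2 ≤ pn p x ^ 2}

lemma pn_single {p : ℝ} (hp : 0 < p) (k : Fin d) : pn p (Pi.single k (1 : ℝ)) = 1 := by
  unfold pn
  rw [Finset.sum_eq_single k]
  · simp
  · intro j _ hj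
    simp [hj, hp.ne']
  · simp

lemma Wt_le_one {p : ℝ} (hp : 0 < p) {w : Fin d → ℝ} (hw : w ∈ Wt d p) (k : Fin d) : w k ≤ 1 := by
  have h := hw.2 (Pi.single k (1 : ℝ))
  rw [pn_single hp, Finset.sum_eq_single k] at h
  · simpa using h
  · intro j _ hj
    simp [hj]
  · simp

lemma Wt_zero (p : ℝ) : (0 : Fin d → ℝ) ∈ Wt d p :=
  ⟨fun _ => le_rfl, fun x => by simpa using sq_nonneg (pn p x)⟩

lemma Wt_convex (p : ℝ) : Convex ℝ (Wt d p) := by
  intro w hw w' hw' s t hs ht hst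
  refine ⟨fun k => ?_, fun x => ?_⟩
  · have h1 := hw.1 k
    have h2 := hw'.1 k
    simp only [Pi.add_apply, Pi.smul_apply, smul_eq_mul]
    positivity
  · have h1 := mul_le_mul_of_nonneg_left (hw.2 x) hs
    have h2 := mul_le_mul_of_nonneg_left (hw'.2 x) ht
    have e : ∑ k, (s • w + t • w') k * x k ^ 2
        = s * ∑ k, w k * x k ^ 2 + t * ∑ k, w' k * x k ^ 2 := by
      rw [Finset.mul_sum, Finset.mul_sum, ← Finset.sum_add_distrib]
      refine Finset.sum_congr rfl fun k _ => ?_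
      simp only [Pi.add_apply, Pi.smul_apply, smul_eq_mul]
      ring
    rw [e]
    have : s * pn p x ^ 2 + t * pn p x ^ 2 = pn p x ^ 2 := by rw [← add_mul, hst, one_mul]
    linarith

lemma Wt_compact {p : ℝ} (hp : 0 < p) : IsCompact (Wt d p) := by
  have hsub : Wt d p ⊆ Set.pi Set.univ (fun _ : Fin d => Set.Icc (0 : ℝ) 1) :=
    fun w hw k _ => ⟨hw.1 k, Wt_le_one hp hw k⟩
  refine IsCompact.of_isClosed_subset (isCompact_univ_pi fun _ => isCompact_Icc) ?_ hsub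
  have : Wt d p = (⋂ k, {w : Fin d → ℝ | 0 ≤ w k}) ∩
      ⋂ x : Fin d → ℝ, {w : Fin d → ℝ | ∑ k, w k * x k ^ 2 ≤ pn p x ^ 2} := by
    ext w; simp [Wt]
  rw [this]
  refine (isClosed_iInter fun k => ?_).inter (isClosed_iInter fun x => ?_)
  · exact isClosed_le continuous_const (continuous_apply k)
  · exact isClosed_le (by fun_prop) continuous_const

/-- fourth moment comparison -/
lemma rad_rpow_le {p : ℝ} (hp : 0 < p) (hp4 : p ≤ 4) (v : Fin d → ℝ) :
    ((2 : ℝ) ^ d)⁻¹ * ∑ e, |rad v e| ^ p ≤ (3 * (∑ k, v k ^ 2) ^ 2) ^ (p / 4) := by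
  have h1 := Real.rpow_arith_mean_le_arith_mean_rpow (univ : Finset (Fin d → Bool))
    (fun _ => ((2 : ℝ) ^ d)⁻¹) (fun e => |rad v e| ^ p) (fun _ _ => by positivity)
    (by simp) (fun e _ => by positivity) (p := 4 / p) (by rw [le_div_iff₀ hp]; linarith)
  have h2 : ∀ e, (|rad v e| ^ p) ^ (4 / p) = rad v e ^ 4 := by
    intro e
    rw [← Real.rpow_mul (abs_nonneg _), mul_div_cancel₀ _ hp.ne']
    have : |rad v e| ^ (4 : ℝ) = |rad v e| ^ (4 : ℕ) := by
      rw [← Real.rpow_natCast]; norm_num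
    rw [this]
    exact (Even.pow_abs (by decide) _)
  simp only [h2, ← Finset.mul_sum] at h1
  have h3 : ((2 : ℝ) ^ d)⁻¹ * ∑ e, rad v e ^ 4 ≤ 3 * (∑ k, v k ^ 2) ^ 2 := by
    have := rad_four v
    rw [inv_mul_le_iff₀ (by positivity)]
    exact this
  have h4 := h1.trans h3
  set z := ((2 : ℝ) ^ d)⁻¹ * ∑ e, |rad v e| ^ p with hz
  have hz0 : 0 ≤ z := by positivity
  have h5 : z = (z ^ (4 / p)) ^ (p / 4) := by
    rw [← Real.rpow_mul hz0]
    have : 4 / p * (p / 4) = 1 := by field_simp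
    rw [this, Real.rpow_one]
  rw [h5]
  exact Real.rpow_le_rpow (by positivity) h4 (by positivity)

/-- second moment of the `ℓ_p` norm of a Rademacher vector -/
lemma mean_pn_sq {p : ℝ} (hp : 2 ≤ p) (hp4 : p ≤ 4) {m : ℕ} (S : Matrix (Fin d) (Fin m) ℝ) :
    ((2 : ℝ) ^ m)⁻¹ * ∑ e, pn p (fun k => rad (S k) e) ^ 2
      ≤ Real.sqrt 3 * (∑ k, (∑ j, S k j ^ 2) ^ (p / 2)) ^ (2 / p) := by
  have hp0 : 0 < p := by linarith
  have h1 := Real.rpow_arith_mean_le_arith_mean_rpow (univ : Finset (Fin m → Bool))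
    (fun _ => ((2 : ℝ) ^ m)⁻¹) (fun e => pn p (fun k => rad (S k) e) ^ 2)
    (fun _ _ => by positivity) (by simp) (fun e _ => by positivity) (p := p / 2) (by linarith)
  have h2 : ∀ e : Fin m → Bool, (pn p (fun k => rad (S k) e) ^ 2) ^ (p / 2)
      = ∑ k, |rad (S k) e| ^ p := by
    intro e
    have h0 : 0 ≤ ∑ k, |rad (S k) e| ^ p :=
      Finset.sum_nonneg fun i _ => Real.rpow_nonneg (abs_nonneg _) _
    unfold pn
    rw [← Real.rpow_natCast, ← Real.rpow_mul h0, ← Real.rpow_mul h0]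
    have : 1 / p * ((2 : ℕ) : ℝ) * (p / 2) = 1 := by push_cast; field_simp
    rw [this, Real.rpow_one]
  simp only [h2, ← Finset.mul_sum] at h1
  have h3 : ((2 : ℝ) ^ m)⁻¹ * ∑ e, ∑ k, |rad (S k) e| ^ p
      ≤ (3 : ℝ) ^ (p / 4) * ∑ k, (∑ j, S k j ^ 2) ^ (p / 2) := by
    rw [Finset.sum_comm, Finset.mul_sum, Finset.mul_sum]
    refine Finset.sum_le_sum fun k _ => (rad_rpow_le hp0 hp4 (S k)).trans (le_of_eq ?_)
    have h0 : 0 ≤ ∑ j, S k j ^ 2 := Finset.sum_nonneg fun i _ => sq_nonneg _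
    rw [Real.mul_rpow (by norm_num) (by positivity), ← Real.rpow_natCast, ← Real.rpow_mul h0]
    congr 2
    push_cast
    ring
  have h4 := h1.trans h3
  set z := ((2 : ℝ) ^ m)⁻¹ * ∑ e, pn p (fun k => rad (S k) e) ^ 2 with hz
  have hz0 : 0 ≤ z := by positivity
  have hs0 : 0 ≤ ∑ k, (∑ j, S k j ^ 2) ^ (p / 2) :=
    Finset.sum_nonneg fun k _ => Real.rpow_nonneg (Finset.sum_nonneg fun i _ => sq_nonneg _) _
  have h5 : z = (z ^ (p / 2)) ^ (2 / p) := by
    rw [← Real.rpow_mul hz0]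
    have : p / 2 * (2 / p) = 1 := by field_simp
    rw [this, Real.rpow_one]
  have h6 : Real.sqrt 3 * (∑ k, (∑ j, S k j ^ 2) ^ (p / 2)) ^ (2 / p)
      = ((3 : ℝ) ^ (p / 4) * ∑ k, (∑ j, S k j ^ 2) ^ (p / 2)) ^ (2 / p) := by
    rw [Real.mul_rpow (by positivity) hs0, ← Real.rpow_mul (by norm_num), Real.sqrt_eq_rpow]
    congr 2
    field_simp
    norm_num
  rw [h5, h6]
  exact Real.rpow_le_rpow (by positivity) h4 (by positivity)

/-- P1 -/
lemma trace_le {p : ℝ} (hp : 2 ≤ p) (hp4 : p ≤ 4) {M : Matrix (Fin d) (Fin d) ℝ} {a : ℝ}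
    (ha : 0 ≤ a) (hM : ∀ x : Fin d → ℝ, x ⬝ᵥ (M *ᵥ x) ≤ a * pn p x ^ 2)
    {m : ℕ} (S : Matrix (Fin d) (Fin m) ℝ) :
    trace (M * (S * Sᵀ)) ≤ a * (Real.sqrt 3 * (∑ k, ((S * Sᵀ) k k) ^ (p / 2)) ^ (2 / p)) := by
  have e1 : ∀ k l, (S * Sᵀ) k l = ∑ j, S k j * S l j := by
    intro k l
    simp [Matrix.mul_apply]
  have e2 : (2 : ℝ) ^ m * trace (M * (S * Sᵀ))
      = ∑ e, (fun k => rad (S k) e) ⬝ᵥ (M *ᵥ (fun k => rad (S k) e)) := by
    have hL : trace (M * (S * Sᵀ)) = ∑ k, ∑ l, M k l * ∑ j, S l j * S k j := by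
      unfold Matrix.trace
      refine Finset.sum_congr rfl fun k _ => ?_
      rw [Matrix.diag_apply, Matrix.mul_apply]
      exact Finset.sum_congr rfl fun l _ => by rw [e1]
    have hR : ∀ e : Fin m → Bool, (fun k => rad (S k) e) ⬝ᵥ (M *ᵥ (fun k => rad (S k) e))
        = ∑ k, ∑ l, M k l * (rad (S l) e * rad (S k) e) := by
      intro e
      unfold dotProduct
      refine Finset.sum_congr rfl fun k _ => ?_
      unfold Matrix.mulVec dotProduct
      rw [Finset.mul_sum]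
      exact Finset.sum_congr rfl fun l _ => by ring
    rw [hL, Finset.sum_congr rfl fun e _ => hR e, Finset.mul_sum, Finset.sum_comm]
    refine Finset.sum_congr rfl fun k _ => ?_
    rw [Finset.mul_sum, Finset.sum_comm]
    refine Finset.sum_congr rfl fun l _ => ?_
    rw [← Finset.mul_sum, rad_pair]
    ring
  have e3 : trace (M * (S * Sᵀ)) ≤ a * (((2 : ℝ) ^ m)⁻¹ * ∑ e, pn p (fun k => rad (S k) e) ^ 2) := by
    have h1 : (2 : ℝ) ^ m * trace (M * (S * Sᵀ)) ≤ ∑ e : Fin m → Bool,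
        a * pn p (fun k => rad (S k) e) ^ 2 := by
      rw [e2]
      exact Finset.sum_le_sum fun e _ => hM _
    rw [← Finset.mul_sum] at h1
    have h2 : trace (M * (S * Sᵀ)) = ((2 : ℝ) ^ m)⁻¹ * ((2 : ℝ) ^ m * trace (M * (S * Sᵀ))) := by
      field_simp
    rw [h2]
    calc ((2 : ℝ) ^ m)⁻¹ * ((2 : ℝ) ^ m * trace (M * (S * Sᵀ)))
        ≤ ((2 : ℝ) ^ m)⁻¹ * (a * ∑ e : Fin m → Bool, pn p (fun k => rad (S k) e) ^ 2) :=
          mul_le_mul_of_nonneg_left h1 (by positivity)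
      _ = _ := by ring
  refine e3.trans (mul_le_mul_of_nonneg_left ?_ ha)
  refine (mean_pn_sq hp hp4 S).trans (le_of_eq ?_)
  have e4 : ∀ k, ∑ j, S k j ^ 2 = (S * Sᵀ) k k := by
    intro k
    rw [e1]
    exact Finset.sum_congr rfl fun j _ => by ring
  simp only [e4]

/-- duality: the best weight for a nonnegative vector -/
lemma exists_weight {p : ℝ} (hp : 2 ≤ p) (y : Fin d → ℝ) (hy : ∀ k, 0 ≤ y k) :
    ∃ w ∈ Wt d p, (∑ k, y k ^ (p / 2)) ^ (2 / p) ≤ ∑ k, w k * y k := by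
  have hp0 : 0 < p := by linarith
  have hsq : ∀ x : Fin d → ℝ, pn p x ^ 2 = (∑ k, |x k| ^ p) ^ (2 / p) := by
    intro x
    have h0 : 0 ≤ ∑ k, |x k| ^ p :=
      Finset.sum_nonneg fun i _ => Real.rpow_nonneg (abs_nonneg _) _
    unfold pn
    rw [← Real.rpow_natCast, ← Real.rpow_mul h0]
    congr 1
    push_cast
    ring
  rcases eq_or_lt_of_le hp with h2 | h2
  · subst h2
    refine ⟨fun _ => 1, ⟨fun _ => zero_le_one, fun x => ?_⟩, ?_⟩
    · rw [hsq]
      simp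
    · simp
  set s : ℝ := p / 2 with hs
  have hs1 : 1 < s := by rw [hs]; linarith
  set N : ℝ := ∑ k, y k ^ s with hN
  have hN0 : 0 ≤ N := Finset.sum_nonneg fun k _ => Real.rpow_nonneg (hy k) _
  have h2p : 2 / p = 1 / s := by rw [hs]; field_simp
  rcases eq_or_lt_of_le hN0 with h0 | h0
  · refine ⟨0, Wt_zero p, ?_⟩
    rw [← h0, Real.zero_rpow (by positivity)]
    simp
  have hsp : 0 < s := by linarith
  have hmem : ∀ x : Fin d → ℝ, ∑ k, (y k ^ (s - 1) / N ^ (1 - 1 / s)) * x k ^ 2 ≤ pn p x ^ 2 := by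
    intro x
    have hconj : (s / (s - 1)).HolderConjugate s := by
      have h := Real.HolderConjugate.conjExponent hs1
      exact h.symm
    have hh := Real.inner_le_Lp_mul_Lq_of_nonneg (univ : Finset (Fin d)) hconj
      (f := fun k => y k ^ (s - 1)) (g := fun k => x k ^ 2)
      (fun k _ => Real.rpow_nonneg (hy k) _) (fun k _ => sq_nonneg _)
    have e1 : ∀ k, (y k ^ (s - 1)) ^ (s / (s - 1)) = y k ^ s := by
      intro k
      rw [← Real.rpow_mul (hy k), mul_div_cancel₀ _ (by linarith : (s - 1) ≠ 0)]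
    have e2 : ∀ k, (x k ^ 2) ^ s = |x k| ^ p := by
      intro k
      rw [← sq_abs, ← Real.rpow_natCast, ← Real.rpow_mul (abs_nonneg _), hs]
      congr 1
      push_cast
      ring
    simp only [e1, e2] at hh
    rw [hsq, h2p]
    have e3 : ∑ k, (y k ^ (s - 1) / N ^ (1 - 1 / s)) * x k ^ 2
        = (∑ k, y k ^ (s - 1) * x k ^ 2) / N ^ (1 - 1 / s) := by
      rw [Finset.sum_div]
      exact Finset.sum_congr rfl fun k _ => by ring
    have e4 : 1 / (s / (s - 1)) = 1 - 1 / s := by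
      have : s - 1 ≠ 0 := by linarith
      field_simp
    rw [e3, div_le_iff₀ (by positivity)]
    rw [e4] at hh
    linarith
  refine ⟨fun k => y k ^ (s - 1) / N ^ (1 - 1 / s), ⟨fun k => ?_, hmem⟩, ?_⟩
  · exact div_nonneg (Real.rpow_nonneg (hy k) _) (by positivity)
  · have e1 : ∑ k, y k ^ (s - 1) / N ^ (1 - 1 / s) * y k = N / N ^ (1 - 1 / s) := by
      rw [hN, Finset.sum_div]
      refine Finset.sum_congr rfl fun k _ => ?_
      rw [← hN]
      have : y k ^ s = y k ^ (s - 1) * y k := by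
        rcases eq_or_lt_of_le (hy k) with hk | hk
        · rw [← hk, Real.zero_rpow hsp.ne']; simp
        · rw [Real.rpow_sub_one hk.ne']; field_simp
      rw [this]
      ring
    rw [e1, h2p]
    have e5 : N / N ^ (1 - 1 / s) = N ^ (1 / s) := by
      rw [Real.rpow_sub h0, Real.rpow_one]
      field_simp
    rw [e5]

/-- for every positive semidefinite matrix there is a good weight -/
lemma exists_weight_psd {p : ℝ} (hp : 2 ≤ p) (hp4 : p ≤ 4) {M : Matrix (Fin d) (Fin d) ℝ} {a : ℝ}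
    (ha : 0 ≤ a) (hM : ∀ x : Fin d → ℝ, x ⬝ᵥ (M *ᵥ x) ≤ a * pn p x ^ 2)
    {P : Matrix (Fin d) (Fin d) ℝ} (hP : P.PosSemidef) :
    ∃ w ∈ Wt d p, trace (M * P) ≤ a * Real.sqrt 3 * ∑ k, w k * P k k := by
  obtain ⟨m, v, hB⟩ := (Matrix.posSemidef_iff_eq_sum_vecMulVec).1 hP
  have hB' : P = (Matrix.of fun k i => v i k) * (Matrix.of fun k i => v i k)ᵀ := by
    rw [hB]
    ext k l
    rw [Matrix.mul_apply, Matrix.sum_apply]
    exact Finset.sum_congr rfl fun i _ => by simp [Matrix.vecMulVec_apply]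
  have h1 := trace_le hp hp4 ha hM (Matrix.of fun k i => v i k)
  rw [← hB'] at h1
  obtain ⟨w, hw, h2⟩ := exists_weight hp (fun k => P k k) (fun k => by
    have := hP.diag_nonneg (i := k)
    exact this)
  refine ⟨w, hw, h1.trans ?_⟩
  have h3 := mul_le_mul_of_nonneg_left h2 (mul_nonneg ha (Real.sqrt_nonneg 3))
  linarith

/-- one sided domination, by the minimax theorem -/
lemma dom_one {p : ℝ} (hp : 2 ≤ p) (hp4 : p ≤ 4) {M : Matrix (Fin d) (Fin d) ℝ} {a : ℝ}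
    (ha : 0 ≤ a) (hM : ∀ x : Fin d → ℝ, x ⬝ᵥ (M *ᵥ x) ≤ a * pn p x ^ 2) :
    ∃ w ∈ Wt d p, ∀ x : Fin d → ℝ, x ⬝ᵥ (M *ᵥ x) ≤ a * Real.sqrt 3 * ∑ k, w k * x k ^ 2 := by
  have hp0 : 0 < p := by linarith
  by_contra hcon
  push Not at hcon
  let f : (Fin d → ℝ) → Matrix (Fin d) (Fin d) ℝ → ℝ :=
    fun w P => trace (M * P) - a * Real.sqrt 3 * ∑ k, w k * P k k
  let Y : Set (Matrix (Fin d) (Fin d) ℝ) := {P | P.PosSemidef}
  have hfc : ∀ P, Continuous fun w => f w P := fun P => by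
    simp only [f]; fun_prop
  have hfc' : ∀ w, Continuous fun P => f w P := fun w => by
    simp only [f, Matrix.trace, Matrix.diag, Matrix.mul_apply]
    fun_prop
  have hpt : ∀ w ∈ Wt d p, ∃ P ∈ Y, 0 < f w P := by
    intro w hw
    obtain ⟨x, hx⟩ := hcon w hw
    refine ⟨Matrix.vecMulVec x x, ?_, ?_⟩
    · have := Matrix.posSemidef_vecMulVec_self_star x
      rw [star_trivial] at this
      exact this
    · simp only [f]
      have e1 : trace (M * Matrix.vecMulVec x x) = x ⬝ᵥ (M *ᵥ x) := by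
        rw [Matrix.mul_vecMulVec, Matrix.trace_vecMulVec, dotProduct_comm]
      have e2 : ∑ k, w k * Matrix.vecMulVec x x k k = ∑ k, w k * x k ^ 2 := by
        refine Finset.sum_congr rfl fun k _ => ?_
        rw [Matrix.vecMulVec_apply]; ring
      rw [e1, e2]
      linarith
  choose! g hgY hg using hpt
  obtain ⟨t, htX, htc⟩ := (Wt_compact (d := d) hp0).elim_nhds_subcover
    (fun w => {w' | 0 < f w' (g w)}) (fun w hw => (isOpen_lt continuous_const
      (hfc (g w))).mem_nhds (hg w hw))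
  have hYc : Convex ℝ Y := by
    intro P hP Q hQ s t hs ht _
    exact (Matrix.PosSemidef.smul hP hs).add (Matrix.PosSemidef.smul hQ ht)
  have hlin1 : ∀ P, ∀ r : ℝ, Convex ℝ {w : Fin d → ℝ | f w P ≤ r} := by
    intro P r w hw w' hw' s t hs ht hst
    simp only [Set.mem_ofPred_eq] at hw hw' ⊢
    have : f (s • w + t • w') P = s * f w P + t * f w' P := by
      simp only [f]
      have e : ∑ k, (s • w + t • w') k * P k k
          = s * ∑ k, w k * P k k + t * ∑ k, w' k * P k k := by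
        rw [Finset.mul_sum, Finset.mul_sum, ← Finset.sum_add_distrib]
        refine Finset.sum_congr rfl fun k _ => ?_
        simp only [Pi.add_apply, Pi.smul_apply, smul_eq_mul]
        ring
      rw [e]
      linear_combination (-trace (M * P)) * hst
    rw [this]
    have : s * r + t * r = r := by rw [← add_mul, hst, one_mul]
    nlinarith [mul_le_mul_of_nonneg_left hw hs, mul_le_mul_of_nonneg_left hw' ht]
  have hlin2 : ∀ w, ∀ r : ℝ, Convex ℝ {P : Matrix (Fin d) (Fin d) ℝ | r ≤ f w P} := by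
    intro w r P hP Q hQ s t hs ht hst
    simp only [Set.mem_ofPred_eq] at hP hQ ⊢
    have : f w (s • P + t • Q) = s * f w P + t * f w Q := by
      simp only [f]
      have e : ∑ k, w k * (s • P + t • Q) k k
          = s * ∑ k, w k * P k k + t * ∑ k, w k * Q k k := by
        rw [Finset.mul_sum, Finset.mul_sum, ← Finset.sum_add_distrib]
        refine Finset.sum_congr rfl fun k _ => ?_
        simp only [Matrix.add_apply, Matrix.smul_apply, smul_eq_mul]
        ring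
      rw [e, Matrix.mul_add, Matrix.mul_smul, Matrix.mul_smul, Matrix.trace_add,
        Matrix.trace_smul, Matrix.trace_smul, smul_eq_mul, smul_eq_mul]
      ring
    rw [this]
    have : s * r + t * r = r := by rw [← add_mul, hst, one_mul]
    nlinarith [mul_le_mul_of_nonneg_left hP hs, mul_le_mul_of_nonneg_left hQ ht]
  obtain ⟨P0, hP0, hall⟩ := Sion.exists_lt_iInf_of_lt_iInf_of_finite (X := Wt d p) (Y := Y)
    (f := f) ⟨0, Wt_zero p⟩ (Wt_compact hp0)
    (fun P _ => (hfc P).lowerSemicontinuous.lowerSemicontinuousOn _)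
    (fun P _ => (Wt_convex p).quasiconvexOn_of_convex_le (hlin1 P))
    hYc
    (fun w _ => (hfc' w).upperSemicontinuous.upperSemicontinuousOn _)
    (fun w _ => hYc.quasiconcaveOn_of_convex_ge (hlin2 w))
    (Wt_convex p)
    (s := g '' (t : Set (Fin d → ℝ))) (t.finite_toSet.image g)
    (by rintro _ ⟨w, hw, rfl⟩; exact hgY w (htX w hw))
    (t := 0) (by
      intro w hw
      have := htc hw
      simp only [Set.mem_iUnion, Set.mem_ofPred_eq, exists_prop] at this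
      obtain ⟨w', hw', h⟩ := this
      exact ⟨g w', ⟨w', hw', rfl⟩, h⟩)
  obtain ⟨w, hw, h⟩ := exists_weight_psd hp hp4 ha hM hP0
  have := hall w hw
  simp only [f] at this
  linarith

/-- **Domination.** -/
theorem dom {p : ℝ} (hp : 2 ≤ p) (hp4 : p ≤ 4) {M : Matrix (Fin d) (Fin d) ℝ} {a : ℝ}
    (ha : 0 ≤ a) (hM : ∀ x : Fin d → ℝ, |x ⬝ᵥ (M *ᵥ x)| ≤ a * pn p x ^ 2) :
    ∃ w ∈ Wt d p, ∀ x : Fin d → ℝ,
      |x ⬝ᵥ (M *ᵥ x)| ≤ 2 * Real.sqrt 3 * a * ∑ k, w k * x k ^ 2 := by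
  obtain ⟨w1, hw1, h1⟩ := dom_one hp hp4 ha (fun x => (le_abs_self _).trans (hM x))
  obtain ⟨w2, hw2, h2⟩ := dom_one (M := -M) hp hp4 ha (fun x => by
    rw [Matrix.neg_mulVec, dotProduct_neg]
    exact (neg_le_abs _).trans (hM x))
  refine ⟨(1 / 2 : ℝ) • w1 + (1 / 2 : ℝ) • w2,
    Wt_convex p hw1 hw2 (by norm_num) (by norm_num) (by norm_num), fun x => ?_⟩
  have e : ∑ k, ((1 / 2 : ℝ) • w1 + (1 / 2 : ℝ) • w2) k * x k ^ 2
      = (1 / 2) * ∑ k, w1 k * x k ^ 2 + (1 / 2) * ∑ k, w2 k * x k ^ 2 := by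
    rw [Finset.mul_sum, Finset.mul_sum, ← Finset.sum_add_distrib]
    refine Finset.sum_congr rfl fun k _ => ?_
    simp only [Pi.add_apply, Pi.smul_apply, smul_eq_mul]
    ring
  rw [e]
  have g1 := h1 x
  have g2 := h2 x
  rw [Matrix.neg_mulVec, dotProduct_neg] at g2
  have p1 : 0 ≤ ∑ k, w1 k * x k ^ 2 :=
    Finset.sum_nonneg fun k _ => mul_nonneg (hw1.1 k) (sq_nonneg _)
  have p2 : 0 ≤ ∑ k, w2 k * x k ^ 2 :=
    Finset.sum_nonneg fun k _ => mul_nonneg (hw2.1 k) (sq_nonneg _)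
  have q : 0 ≤ a * Real.sqrt 3 := mul_nonneg ha (Real.sqrt_nonneg 3)
  rw [abs_le]
  constructor <;> nlinarith [mul_nonneg q p1, mul_nonneg q p2]

end Pool.Agent.InjP
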