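import Mathlib
import Pool.Agent.InjP.Dom

/-!
# Definitions for `MP_e7fc82_pr`: injective `ℓ_p` norms of tensors and Gaussian sums
-/

namespace Pool.Agent.InjP

open Finset MeasureTheory ProbabilityTheory

/-- `⟨T, x^{⊗ r}⟩` -/
def pairing {r d : ℕ} (T : (Fin r → Fin d) → ℝ) (x : Fin d → ℝ) : ℝ :=
  ∑ k : Fin r → Fin d, T k * ∏ j, x (k j)

/-- symmetric tensors -/
def IsSymT {r d : ℕ} (T : (Fin r → Fin d) → ℝ) : Prop :=
  ∀ (σ : Equiv.Perm (Fin r)) (k : Fin r → Fin d), T (k ∘ σ) = T k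

/-- the symmetric injective `ℓ_p` norm, `sup_{‖x‖_p ≤ 1} |⟨T, x^{⊗ r}⟩|` -/
noncomputable def injNorm {r d : ℕ} (p : ℝ) (T : (Fin r → Fin d) → ℝ) : ℝ :=
  sSup {y | ∃ x : Fin d → ℝ, pn p x ≤ 1 ∧ y = |pairing T x|}

/-- the law of `n` i.i.d. standard Gaussian variables -/
noncomputable def gauss (n : ℕ) : Measure (Fin n → ℝ) := Measure.pi fun _ => gaussianReal 0 1

/-- inequality `(∗)` for the pair `(r, p)` -/
def Star (r : ℕ) (p : ℝ) : Prop :=
  ∃ C k : ℝ, 0 ≤ C ∧ 0 ≤ k ∧ ∀ d n : ℕ, 1 ≤ d → 1 ≤ n →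
    ∀ T : Fin n → (Fin r → Fin d) → ℝ, (∀ i, IsSymT (T i)) →
      Integrable (fun g : Fin n → ℝ => injNorm p (∑ i, g i • T i)) (gauss n) ∧
      ∫ g : Fin n → ℝ, injNorm p (∑ i, g i • T i) ∂gauss n
        ≤ C * Real.log (Real.exp 1 * d * n) ^ k * (d : ℝ) ^ (1 / 2 - 1 / p)
          * Real.sqrt (∑ i, injNorm p (T i) ^ 2)

variable {r d n : ℕ}

lemma abs_le_pn {p : ℝ} (hp : 0 < p) (x : Fin d → ℝ) (k : Fin d) : |x k| ≤ pn p x := by
  have h0 : 0 ≤ |x k| ^ p := Real.rpow_nonneg (abs_nonneg _) _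
  have h1 : |x k| ^ p ≤ ∑ i, |x i| ^ p :=
    Finset.single_le_sum (f := fun i => |x i| ^ p)
      (fun i _ => Real.rpow_nonneg (abs_nonneg _) _) (Finset.mem_univ k)
  have h2 : |x k| = (|x k| ^ p) ^ (1 / p) := by
    rw [← Real.rpow_mul (abs_nonneg _), mul_one_div_cancel hp.ne', Real.rpow_one]
  rw [h2]
  exact Real.rpow_le_rpow h0 h1 (by positivity)

lemma pn_zero {p : ℝ} (hp : 0 < p) : pn p (0 : Fin d → ℝ) = 0 := by
  unfold pn
  simp [Real.zero_rpow hp.ne', hp.ne']

lemma pn_smul {p : ℝ} (hp : 0 < p) (c : ℝ) (x : Fin d → ℝ) : pn p (c • x) = |c| * pn p x := by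
  unfold pn
  have e1 : ∀ i, |(c • x) i| ^ p = |c| ^ p * |x i| ^ p := by
    intro i
    rw [Pi.smul_apply, smul_eq_mul, abs_mul, Real.mul_rpow (abs_nonneg _) (abs_nonneg _)]
  rw [Finset.sum_congr rfl fun i _ => e1 i, ← Finset.mul_sum,
    Real.mul_rpow (Real.rpow_nonneg (abs_nonneg _) _)
      (Finset.sum_nonneg fun i _ => Real.rpow_nonneg (abs_nonneg _) _),
    ← Real.rpow_mul (abs_nonneg _), mul_one_div_cancel hp.ne', Real.rpow_one]

lemma pairing_smul_right (T : (Fin r → Fin d) → ℝ) (c : ℝ) (x : Fin d → ℝ) :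
    pairing T (c • x) = c ^ r * pairing T x := by
  unfold pairing
  rw [Finset.mul_sum]
  refine Finset.sum_congr rfl fun k _ => ?_
  simp only [Pi.smul_apply, smul_eq_mul, Finset.prod_mul_distrib, Finset.prod_const,
    Finset.card_univ, Fintype.card_fin]
  ring

lemma pairing_sum (T : Fin n → (Fin r → Fin d) → ℝ) (g : Fin n → ℝ) (x : Fin d → ℝ) :
    pairing (∑ i, g i • T i) x = ∑ i, g i * pairing (T i) x := by
  unfold pairing
  simp only [Finset.sum_apply, Pi.smul_apply, smul_eq_mul, Finset.sum_mul, Finset.mul_sum]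
  rw [Finset.sum_comm]
  exact Finset.sum_congr rfl fun i _ => Finset.sum_congr rfl fun k _ => by ring

lemma injNorm_bdd {p : ℝ} (hp : 0 < p) (T : (Fin r → Fin d) → ℝ) :
    BddAbove {y | ∃ x : Fin d → ℝ, pn p x ≤ 1 ∧ y = |pairing T x|} := by
  refine ⟨∑ k, |T k|, ?_⟩
  rintro _ ⟨x, hx, rfl⟩
  unfold pairing
  refine (Finset.abs_sum_le_sum_abs _ _).trans (Finset.sum_le_sum fun k _ => ?_)
  rw [abs_mul, Finset.abs_prod]
  have : ∏ j, |x (k j)| ≤ 1 :=
    Finset.prod_le_one (fun j _ => abs_nonneg _) (fun j _ => (abs_le_pn hp x _).trans hx)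
  calc |T k| * ∏ j, |x (k j)| ≤ |T k| * 1 := by gcongr
    _ = |T k| := mul_one _

lemma le_injNorm_of {p : ℝ} (hp : 0 < p) (T : (Fin r → Fin d) → ℝ) {x : Fin d → ℝ}
    (hx : pn p x ≤ 1) : |pairing T x| ≤ injNorm p T :=
  le_csSup (injNorm_bdd hp T) ⟨x, hx, rfl⟩

lemma injNorm_nonneg {p : ℝ} (hp : 0 < p) (T : (Fin r → Fin d) → ℝ) : 0 ≤ injNorm p T :=
  (abs_nonneg _).trans (le_injNorm_of hp T (x := 0) (by rw [pn_zero hp]; exact zero_le_one))

lemma pairing_le {p : ℝ} (hp : 0 < p) (hr : r ≠ 0) (T : (Fin r → Fin d) → ℝ) (x : Fin d → ℝ) :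
    |pairing T x| ≤ injNorm p T * pn p x ^ r := by
  rcases eq_or_lt_of_le (pn_nonneg p x) with h0 | h0
  · have hx : x = 0 := by
      funext k
      have := abs_le_pn hp x k
      rw [← h0] at this
      exact abs_eq_zero.1 (le_antisymm this (abs_nonneg _))
    have : pairing T x = 0 := by
      have h := pairing_smul_right T 0 x
      rw [zero_smul, zero_pow hr, zero_mul] at h
      rw [hx]
      exact h
    rw [this, abs_zero, ← h0, zero_pow hr, mul_zero]
  · have h1 := le_injNorm_of hp T (x := (pn p x)⁻¹ • x) (by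
      rw [pn_smul hp, abs_inv, abs_of_pos h0, inv_mul_cancel₀ h0.ne'])
    rw [pairing_smul_right, abs_mul, abs_pow, abs_inv, abs_of_pos h0, inv_pow,
      inv_mul_le_iff₀ (by positivity)] at h1
    linarith

lemma injNorm_le {p : ℝ} (hp : 0 < p) {T : (Fin r → Fin d) → ℝ} {N : ℝ} (hN : 0 ≤ N)
    (h : ∀ x : Fin d → ℝ, |pairing T x| ≤ N * pn p x ^ r) : injNorm p T ≤ N := by
  refine csSup_le ⟨_, 0, by rw [pn_zero hp]; exact zero_le_one, rfl⟩ ?_
  rintro _ ⟨x, hx, rfl⟩
  refine (h x).trans ?_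
  have : pn p x ^ r ≤ 1 := pow_le_one₀ (pn_nonneg p x) hx
  nlinarith

lemma injNorm_sum_le {p : ℝ} (hp : 0 < p) (hr : r ≠ 0) (T : Fin n → (Fin r → Fin d) → ℝ)
    (g : Fin n → ℝ) : injNorm p (∑ i, g i • T i) ≤ ∑ i, |g i| * injNorm p (T i) := by
  refine injNorm_le hp (Finset.sum_nonneg fun i _ => mul_nonneg (abs_nonneg _)
    (injNorm_nonneg hp _)) fun x => ?_
  rw [pairing_sum, Finset.sum_mul]
  refine (Finset.abs_sum_le_sum_abs _ _).trans (Finset.sum_le_sum fun i _ => ?_)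
  rw [abs_mul, mul_assoc]
  exact mul_le_mul_of_nonneg_left (pairing_le hp hr _ _) (abs_nonneg _)

/-- Lipschitz estimate -/
lemma injNorm_sub_le {p : ℝ} (hp : 0 < p) (hr : r ≠ 0) (T : Fin n → (Fin r → Fin d) → ℝ)
    (g g' : Fin n → ℝ) :
    injNorm p (∑ i, g i • T i) ≤ injNorm p (∑ i, g' i • T i)
      + ∑ i, |g i - g' i| * injNorm p (T i) := by
  refine injNorm_le hp (add_nonneg (injNorm_nonneg hp _) (Finset.sum_nonneg fun i _ =>
    mul_nonneg (abs_nonneg _) (injNorm_nonneg hp _))) fun x => ?_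
  have e1 : pairing (∑ i, g i • T i) x
      = pairing (∑ i, g' i • T i) x + pairing (∑ i, (g i - g' i) • T i) x := by
    rw [pairing_sum, pairing_sum, pairing_sum, ← Finset.sum_add_distrib]
    exact Finset.sum_congr rfl fun i _ => by ring
  rw [e1, add_mul]
  refine (abs_add_le _ _).trans (add_le_add (pairing_le hp hr _ _) ?_)
  have h1 := pairing_le hp hr (∑ i, (g i - g' i) • T i) x
  have h2 := injNorm_sum_le hp hr T (fun i => g i - g' i)
  exact h1.trans (mul_le_mul_of_nonneg_right h2 (pow_nonneg (pn_nonneg p x) _))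

lemma continuous_injNorm {p : ℝ} (hp : 0 < p) (hr : r ≠ 0) (T : Fin n → (Fin r → Fin d) → ℝ) :
    Continuous fun g : Fin n → ℝ => injNorm p (∑ i, g i • T i) := by
  rw [continuous_iff_continuousAt]
  intro g'
  rw [ContinuousAt, tendsto_iff_dist_tendsto_zero]
  have hlim : Filter.Tendsto (fun g : Fin n → ℝ => ∑ i, |g i - g' i| * injNorm p (T i))
      (nhds g') (nhds 0) := by
    have hc : Continuous (fun g : Fin n → ℝ => ∑ i, |g i - g' i| * injNorm p (T i)) := by
      fun_prop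
    have := hc.tendsto g'
    simpa using this
  refine squeeze_zero (fun _ => dist_nonneg) (fun g => ?_) hlim
  rw [Real.dist_eq, abs_le]
  have h1 := injNorm_sub_le hp hr T g g'
  have h2 := injNorm_sub_le hp hr T g' g
  have e : ∑ i, |g' i - g i| * injNorm p (T i) = ∑ i, |g i - g' i| * injNorm p (T i) :=
    Finset.sum_congr rfl fun i _ => by rw [abs_sub_comm]
  rw [e] at h2
  constructor <;> linarith

instance : IsProbabilityMeasure (gauss n) := by
  unfold gauss; infer_instance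

lemma integrable_eval_abs (i : Fin n) : Integrable (fun g : Fin n → ℝ => |g i|) (gauss n) := by
  unfold gauss
  refine Integrable.abs ?_
  have h : Integrable (fun x : ℝ => x) (gaussianReal 0 1) :=
    (memLp_id_gaussianReal (μ := 0) (v := 1) 1).integrable (by norm_num)
  exact integrable_comp_eval (μ := fun _ : Fin n => gaussianReal 0 1) (i := i) h

lemma integrable_eval_sq (i : Fin n) : Integrable (fun g : Fin n → ℝ => g i ^ 2) (gauss n) := by
  unfold gauss
  have h : Integrable (fun x : ℝ => x ^ 2) (gaussianReal 0 1) :=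
    (memLp_id_gaussianReal (μ := 0) (v := 1) 2).integrable_sq
  exact integrable_comp_eval (μ := fun _ : Fin n => gaussianReal 0 1) (i := i) h

lemma integral_eval_sq (i : Fin n) : ∫ g : Fin n → ℝ, g i ^ 2 ∂gauss n = 1 := by
  unfold gauss
  have h1 : ∫ g : Fin n → ℝ, g i ^ 2 ∂(Measure.pi fun _ : Fin n => gaussianReal 0 1)
      = ∫ x : ℝ, x ^ 2 ∂gaussianReal 0 1 :=
    integral_comp_eval (μ := fun _ : Fin n => gaussianReal 0 1) (i := i)
      (f := fun x : ℝ => x ^ 2) (by fun_prop)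
  rw [h1]
  have h2 := variance_id_gaussianReal (μ := 0) (v := 1)
  rw [variance_eq_sub (memLp_id_gaussianReal (μ := 0) (v := 1) 2)] at h2
  simp only [Pi.pow_apply, id_eq, integral_id_gaussianReal] at h2
  simpa using h2

lemma integrable_injNorm {p : ℝ} (hp : 0 < p) (hr : r ≠ 0) (T : Fin n → (Fin r → Fin d) → ℝ) :
    Integrable (fun g : Fin n → ℝ => injNorm p (∑ i, g i • T i)) (gauss n) := by
  have hb : Integrable (fun g : Fin n → ℝ => ∑ i, |g i| * injNorm p (T i)) (gauss n) :=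
    integrable_finsetSum _ fun i _ => (integrable_eval_abs i).mul_const _
  refine hb.mono (continuous_injNorm hp hr T).aestronglyMeasurable (Filter.Eventually.of_forall
    fun g => ?_)
  rw [Real.norm_of_nonneg (injNorm_nonneg hp _), Real.norm_of_nonneg (Finset.sum_nonneg fun i _ =>
    mul_nonneg (abs_nonneg _) (injNorm_nonneg hp _))]
  exact injNorm_sum_le hp hr T g

open Pool.Agent.SymASQ (sg) in
/-- sign changes preserve the Gaussian law -/
lemma measurePreserving_sign (e : Fin n → Bool) :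
    MeasurePreserving (fun g : Fin n → ℝ => fun i => sg (e i) * g i) (gauss n) (gauss n) := by
  unfold gauss
  refine measurePreserving_pi _ _ fun i => ⟨by fun_prop, ?_⟩
  rw [gaussianReal_map_const_mul]
  congr 1
  · simp
  · cases e i <;> simp [sg]

end Pool.Agent.InjP
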