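import Mathlib
import Pool.Agent.SymASQ.Groth

/-!
# A Rademacher non-commutative Khintchine inequality (trace moments)

For real symmetric matrices `H i` with `∑ ‖H i x‖² ≤ v ‖x‖²` we bound
`∑_e tr ((∑ i, e i • H i) ^ (2 m)) ≤ 2 ^ n * ((2 m - 1)‼ * v ^ m * d)`.
The proof is the discrete integration by parts of Tropp.
-/

namespace Pool.Agent.InjP

open Finset Matrix
open Pool.Agent.SymASQ (sg)

variable {d n : ℕ}

/-- orthogonal diagonalisation -/
lemma exists_diag (A : Matrix (Fin d) (Fin d) ℝ) (hA : Aᵀ = A) :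
    ∃ (U : Matrix (Fin d) (Fin d) ℝ) (α : Fin d → ℝ), Uᵀ * U = 1 ∧ U * Uᵀ = 1 ∧
      A = U * diagonal α * Uᵀ := by
  have hH : A.IsHermitian := by
    rw [Matrix.IsHermitian, Matrix.conjTranspose_eq_transpose_of_trivial]; exact hA
  refine ⟨hH.eigenvectorUnitary, hH.eigenvalues, ?_, ?_, ?_⟩
  · have := (Matrix.mem_unitaryGroup_iff').1 hH.eigenvectorUnitary.2
    rw [Matrix.star_eq_conjTranspose, Matrix.conjTranspose_eq_transpose_of_trivial] at this
    exact this
  · have := (Matrix.mem_unitaryGroup_iff).1 hH.eigenvectorUnitary.2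
    rw [Matrix.star_eq_conjTranspose, Matrix.conjTranspose_eq_transpose_of_trivial] at this
    exact this
  · have := hH.spectral_theorem
    rw [Unitary.conjStarAlgAut_apply] at this
    rw [Matrix.star_eq_conjTranspose, Matrix.conjTranspose_eq_transpose_of_trivial] at this
    exact this

lemma conj_pow {U : Matrix (Fin d) (Fin d) ℝ} {α : Fin d → ℝ} (hU : Uᵀ * U = 1)
    (hU' : U * Uᵀ = 1) (q : ℕ) :
    (U * diagonal α * Uᵀ) ^ q = U * diagonal (fun i => α i ^ q) * Uᵀ := by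
  induction q with
  | zero => simp [hU']
  | succ q ih =>
    rw [pow_succ, ih]
    have : U * diagonal (fun i => α i ^ q) * Uᵀ * (U * diagonal α * Uᵀ)
        = U * diagonal (fun i => α i ^ q) * (Uᵀ * U) * diagonal α * Uᵀ := by
      simp only [Matrix.mul_assoc]
    rw [this, hU, Matrix.mul_one, Matrix.mul_assoc U, Matrix.diagonal_mul_diagonal]
    simp [pow_succ]

lemma trace_formula {U W H : Matrix (Fin d) (Fin d) ℝ} {α γ : Fin d → ℝ} (hH : Hᵀ = H)
    (hU : Uᵀ * U = 1) (hU' : U * Uᵀ = 1) (hW : Wᵀ * W = 1) (hW' : W * Wᵀ = 1) (q s : ℕ) :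
    trace (H * (U * diagonal α * Uᵀ) ^ q * H * (W * diagonal γ * Wᵀ) ^ s)
      = ∑ a, ∑ b, (Uᵀ * H * W) a b ^ 2 * (α a ^ q * γ b ^ s) := by
  rw [conj_pow hU hU', conj_pow hW hW']
  have e1 : H * (U * diagonal (fun i => α i ^ q) * Uᵀ) * H *
      (W * diagonal (fun i => γ i ^ s) * Wᵀ)
      = (H * U * diagonal (fun i => α i ^ q)) * (Uᵀ * H * W * diagonal (fun i => γ i ^ s) * Wᵀ) := by
    simp only [Matrix.mul_assoc]
  rw [e1, Matrix.trace_mul_comm]
  have e2 : Uᵀ * H * W * diagonal (fun i => γ i ^ s) * Wᵀ * (H * U * diagonal fun i => α i ^ q)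
      = (Uᵀ * H * W) * diagonal (fun i => γ i ^ s) * (Uᵀ * H * W)ᵀ
        * diagonal (fun i => α i ^ q) := by
    rw [Matrix.transpose_mul, Matrix.transpose_mul, Matrix.transpose_transpose, hH]
    simp only [Matrix.mul_assoc]
  rw [e2]
  simp only [Matrix.trace, Matrix.diag, Matrix.mul_diagonal]
  refine Finset.sum_congr rfl fun a _ => ?_
  rw [Matrix.mul_apply, Finset.sum_mul]
  refine Finset.sum_congr rfl fun b _ => ?_
  rw [Matrix.mul_diagonal, Matrix.transpose_apply]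
  ring

lemma pow_pair (x y : ℝ) {q s : ℕ} (h : Even (q + s)) :
    x ^ q * y ^ s + x ^ s * y ^ q ≤ x ^ (q + s) + y ^ (q + s) := by
  have hx : x ^ (q + s) = |x| ^ (q + s) := (h.pow_abs x).symm
  have hy : y ^ (q + s) = |y| ^ (q + s) := (h.pow_abs y).symm
  rw [hx, hy]
  have h1 : x ^ q * y ^ s ≤ |x| ^ q * |y| ^ s := by
    rw [← abs_pow, ← abs_pow, ← abs_mul]; exact le_abs_self _
  have h2 : x ^ s * y ^ q ≤ |x| ^ s * |y| ^ q := by
    rw [← abs_pow, ← abs_pow, ← abs_mul]; exact le_abs_self _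
  have hx0 := abs_nonneg x
  have hy0 := abs_nonneg y
  have h3 : 0 ≤ (|x| ^ q - |y| ^ q) * (|x| ^ s - |y| ^ s) := by
    rcases le_total |x| |y| with hxy | hxy
    · have a1 := pow_le_pow_left₀ hx0 hxy q
      have a2 := pow_le_pow_left₀ hx0 hxy s
      nlinarith
    · have a1 := pow_le_pow_left₀ hy0 hxy q
      have a2 := pow_le_pow_left₀ hy0 hxy s
      nlinarith
  rw [pow_add, pow_add]
  nlinarith

/-- the basic trace inequality -/
lemma trace_pair {A C H : Matrix (Fin d) (Fin d) ℝ} (hA : Aᵀ = A) (hC : Cᵀ = C) (hH : Hᵀ = H)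
    {q s : ℕ} (h : Even (q + s)) :
    trace (H * A ^ q * H * C ^ s) + trace (H * A ^ s * H * C ^ q)
      ≤ trace (H * H * A ^ (q + s)) + trace (H * H * C ^ (q + s)) := by
  obtain ⟨U, α, hU, hU', rfl⟩ := exists_diag A hA
  obtain ⟨W, γ, hW, hW', rfl⟩ := exists_diag C hC
  have f1 := trace_formula (α := α) (γ := γ) hH hU hU' hW hW' q s
  have f2 := trace_formula (α := α) (γ := γ) hH hU hU' hW hW' s q
  have f3 := trace_formula (α := α) (γ := γ) hH hU hU' hW hW' (q + s) 0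
  have f4 := trace_formula (α := α) (γ := γ) hH hU hU' hW hW' 0 (q + s)
  rw [pow_zero, Matrix.mul_one] at f3
  rw [pow_zero, Matrix.mul_one] at f4
  rw [Matrix.trace_mul_comm, ← Matrix.mul_assoc] at f3
  rw [f1, f2, f3, f4, ← Finset.sum_add_distrib, ← Finset.sum_add_distrib]
  refine Finset.sum_le_sum fun a _ => ?_
  rw [← Finset.sum_add_distrib, ← Finset.sum_add_distrib]
  refine Finset.sum_le_sum fun b _ => ?_
  have := mul_le_mul_of_nonneg_left (pow_pair (α a) (γ b) h) (sq_nonneg ((Uᵀ * H * W) a b))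
  simp only [pow_zero, mul_one, one_mul]
  linarith

lemma sub_pow_telescope (A C : Matrix (Fin d) (Fin d) ℝ) (k : ℕ) :
    A ^ k - C ^ k = ∑ q ∈ range k, A ^ q * (A - C) * C ^ (k - 1 - q) := by
  induction k with
  | zero => simp
  | succ k ih =>
    rw [Finset.sum_range_succ]
    have h1 : ∑ q ∈ range k, A ^ q * (A - C) * C ^ (k + 1 - 1 - q)
        = (∑ q ∈ range k, A ^ q * (A - C) * C ^ (k - 1 - q)) * C := by
      rw [Finset.sum_mul]
      refine Finset.sum_congr rfl fun q hq => ?_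
      have hq' := Finset.mem_range.1 hq
      rw [Matrix.mul_assoc _ (C ^ (k - 1 - q)) C, ← pow_succ]
      congr 2
      omega
    rw [h1, ← ih]
    simp only [Nat.add_sub_cancel, Nat.sub_self, pow_zero, Matrix.mul_one]
    rw [Matrix.sub_mul, Matrix.mul_sub, ← pow_succ, ← pow_succ]
    abel

/-- discrete integration by parts, one pair -/
lemma ibp_pair {A C H : Matrix (Fin d) (Fin d) ℝ} (hA : Aᵀ = A) (hC : Cᵀ = C) (hH : Hᵀ = H)
    {c : ℝ} (hAC : A - C = (2 * c) • H) (hc : c ^ 2 = 1) (m : ℕ) :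
    c * trace (H * A ^ (2 * m + 1)) - c * trace (H * C ^ (2 * m + 1))
      ≤ (2 * m + 1) * (trace (H * H * A ^ (2 * m)) + trace (H * H * C ^ (2 * m))) := by
  have e1 : c * trace (H * A ^ (2 * m + 1)) - c * trace (H * C ^ (2 * m + 1))
      = ∑ q ∈ range (2 * m + 1), 2 * trace (H * A ^ q * H * C ^ (2 * m - q)) := by
    rw [← mul_sub, ← Matrix.trace_sub, ← Matrix.mul_sub, sub_pow_telescope, Finset.mul_sum,
      Matrix.trace_sum, Finset.mul_sum]
    refine Finset.sum_congr rfl fun q _ => ?_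
    rw [hAC]
    have : H * (A ^ q * ((2 * c) • H) * C ^ (2 * m + 1 - 1 - q))
        = (2 * c) • (H * A ^ q * H * C ^ (2 * m - q)) := by
      simp only [Matrix.mul_smul, Matrix.smul_mul, Matrix.mul_assoc, Nat.add_sub_cancel]
    rw [this, Matrix.trace_smul, smul_eq_mul]
    linear_combination (2 * trace (H * A ^ q * H * C ^ (2 * m - q))) * hc
  have e2 : ∑ q ∈ range (2 * m + 1), 2 * trace (H * A ^ q * H * C ^ (2 * m - q))
      = ∑ q ∈ range (2 * m + 1), (trace (H * A ^ q * H * C ^ (2 * m - q))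
        + trace (H * A ^ (2 * m - q) * H * C ^ q)) := by
    rw [Finset.sum_add_distrib]
    have := Finset.sum_range_reflect (fun q => trace (H * A ^ q * H * C ^ (2 * m - q))) (2 * m + 1)
    have h2 : ∑ q ∈ range (2 * m + 1), trace (H * A ^ (2 * m - q) * H * C ^ q)
        = ∑ q ∈ range (2 * m + 1), trace (H * A ^ q * H * C ^ (2 * m - q)) := by
      rw [← this]
      refine Finset.sum_congr rfl fun q hq => ?_
      have hq' := Finset.mem_range.1 hq
      have a1 : 2 * m + 1 - 1 - q = 2 * m - q := by omega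
      have a2 : 2 * m - (2 * m + 1 - 1 - q) = q := by omega
      rw [a2, a1]
    rw [h2, ← Finset.mul_sum]
    ring
  rw [e1, e2]
  have e3 : ∀ q ∈ range (2 * m + 1), (trace (H * A ^ q * H * C ^ (2 * m - q))
        + trace (H * A ^ (2 * m - q) * H * C ^ q))
      ≤ trace (H * H * A ^ (2 * m)) + trace (H * H * C ^ (2 * m)) := by
    intro q hq
    have hq' := Finset.mem_range.1 hq
    have hs : q + (2 * m - q) = 2 * m := by omega
    have := trace_pair (q := q) (s := 2 * m - q) hA hC hH (by rw [hs]; exact even_two_mul m)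
    rwa [hs] at this
  refine (Finset.sum_le_card_nsmul _ _ _ e3).trans (le_of_eq ?_)
  rw [Finset.card_range, nsmul_eq_mul]
  push_cast
  ring

/-- the Rademacher sum of matrices -/
def RX (H : Fin n → Matrix (Fin d) (Fin d) ℝ) (e : Fin n → Bool) : Matrix (Fin d) (Fin d) ℝ :=
  ∑ i, sg (e i) • H i

lemma RX_transpose {H : Fin n → Matrix (Fin d) (Fin d) ℝ} (hH : ∀ i, (H i)ᵀ = H i)
    (e : Fin n → Bool) : (RX H e)ᵀ = RX H e := by
  unfold RX
  rw [Matrix.transpose_sum]
  refine Finset.sum_congr rfl fun i _ => ?_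
  rw [Matrix.transpose_smul, hH i]

/-- flip one coordinate -/
def flip (i : Fin n) (e : Fin n → Bool) : Fin n → Bool := Function.update e i (!(e i))

lemma flip_flip (i : Fin n) (e : Fin n → Bool) : flip i (flip i e) = e := by
  unfold flip
  simp

lemma sg_sq (b : Bool) : sg b ^ 2 = 1 := by
  cases b <;> simp [sg]

lemma RX_flip (H : Fin n → Matrix (Fin d) (Fin d) ℝ) (i : Fin n) (e : Fin n → Bool) :
    RX H e - RX H (flip i e) = (2 * sg (e i)) • H i := by
  unfold RX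
  rw [← Finset.sum_sub_distrib, Finset.sum_eq_single i]
  · unfold flip
    rw [Function.update_self, ← sub_smul]
    congr 1
    cases e i <;> simp [sg] <;> norm_num
  · intro j _ hj
    unfold flip
    rw [Function.update_of_ne hj, sub_self]
  · simp

lemma sum_flip (i : Fin n) (F : (Fin n → Bool) → ℝ) : ∑ e, F (flip i e) = ∑ e, F e :=
  Function.Bijective.sum_comp
    (Function.Involutive.bijective (f := flip i) (fun e => flip_flip i e)) F

lemma ibp_sum {H : Fin n → Matrix (Fin d) (Fin d) ℝ} (hH : ∀ i, (H i)ᵀ = H i) (i : Fin n) (m : ℕ) :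
    ∑ e, sg (e i) * trace (H i * RX H e ^ (2 * m + 1))
      ≤ (2 * m + 1) * ∑ e, trace (H i * H i * RX H e ^ (2 * m)) := by
  have h1 : ∑ e, sg (e i) * trace (H i * RX H e ^ (2 * m + 1))
      = ∑ e, (1 / 2) * (sg (e i) * trace (H i * RX H e ^ (2 * m + 1))
        - sg (e i) * trace (H i * RX H (flip i e) ^ (2 * m + 1))) := by
    rw [← Finset.mul_sum, Finset.sum_sub_distrib]
    have h2 : ∑ e, sg (e i) * trace (H i * RX H (flip i e) ^ (2 * m + 1))
        = - ∑ e, sg (e i) * trace (H i * RX H e ^ (2 * m + 1)) := by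
      rw [← sum_flip i (fun e => sg (e i) * trace (H i * RX H e ^ (2 * m + 1))),
        ← Finset.sum_neg_distrib]
      refine Finset.sum_congr rfl fun e _ => ?_
      have : sg (flip i e i) = - sg (e i) := by
        unfold flip
        rw [Function.update_self]
        cases e i <;> simp [sg]
      rw [this]
      ring
    rw [h2]; ring
  have h3 : ∑ e, trace (H i * H i * RX H e ^ (2 * m))
      = ∑ e, (1 / 2) * (trace (H i * H i * RX H e ^ (2 * m))
        + trace (H i * H i * RX H (flip i e) ^ (2 * m))) := by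
    rw [← Finset.mul_sum, Finset.sum_add_distrib,
      sum_flip i (fun e => trace (H i * H i * RX H e ^ (2 * m)))]
    ring
  rw [h1, h3, Finset.mul_sum]
  refine Finset.sum_le_sum fun e _ => ?_
  have := ibp_pair (RX_transpose hH e) (RX_transpose hH (flip i e)) (hH i) (RX_flip H i e)
    (sg_sq _) m
  nlinarith

/-- `∑ i, tr (H i² X^{2m}) ≤ v tr X^{2m}` -/
lemma sum_trace_le {H : Fin n → Matrix (Fin d) (Fin d) ℝ} (hH : ∀ i, (H i)ᵀ = H i) {v : ℝ}
    (hV : ∀ x : Fin d → ℝ, ∑ i, (H i *ᵥ x) ⬝ᵥ (H i *ᵥ x) ≤ v * (x ⬝ᵥ x))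
    {X : Matrix (Fin d) (Fin d) ℝ} (hX : Xᵀ = X) (m : ℕ) :
    ∑ i, trace (H i * H i * X ^ (2 * m)) ≤ v * trace (X ^ (2 * m)) := by
  have hXm : (X ^ m)ᵀ = X ^ m := by rw [Matrix.transpose_pow, hX]
  have e1 : ∀ i, trace (H i * H i * X ^ (2 * m))
      = ∑ j, (H i *ᵥ (X ^ m).col j) ⬝ᵥ (H i *ᵥ (X ^ m).col j) := by
    intro i
    rw [two_mul, pow_add]
    have : H i * H i * (X ^ m * X ^ m) = H i * (H i * X ^ m * X ^ m) := by
      simp only [Matrix.mul_assoc]
    rw [this, Matrix.trace_mul_comm]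
    have h2 : H i * X ^ m * X ^ m * H i = (H i * X ^ m) * (H i * X ^ m)ᵀ := by
      rw [Matrix.transpose_mul, hXm, hH i]
      simp only [Matrix.mul_assoc]
    rw [h2, Matrix.trace_mul_comm]
    simp only [Matrix.trace, Matrix.diag, Matrix.mul_apply, Matrix.transpose_apply, dotProduct,
      Matrix.mulVec, Matrix.col_apply]
  have e2 : trace (X ^ (2 * m)) = ∑ j, (X ^ m).col j ⬝ᵥ (X ^ m).col j := by
    rw [two_mul, pow_add]
    nth_rw 1 [← hXm]
    simp only [Matrix.trace, Matrix.diag, Matrix.mul_apply, Matrix.transpose_apply, dotProduct,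
      Matrix.col_apply]
  rw [Finset.sum_congr rfl fun i _ => e1 i, Finset.sum_comm, e2, Finset.mul_sum]
  exact Finset.sum_le_sum fun j _ => hV _

lemma trace_expand (H : Fin n → Matrix (Fin d) (Fin d) ℝ) (e : Fin n → Bool) (k : ℕ) :
    trace (RX H e ^ (k + 1)) = ∑ i, sg (e i) * trace (H i * RX H e ^ k) := by
  rw [pow_succ']
  conv_lhs => rw [show RX H e * RX H e ^ k = (∑ i, sg (e i) • H i) * RX H e ^ k from rfl]
  rw [Finset.sum_mul, Matrix.trace_sum]
  refine Finset.sum_congr rfl fun i _ => ?_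
  rw [Matrix.smul_mul, Matrix.trace_smul, smul_eq_mul]

/-- the moment recursion -/
lemma moment_succ {H : Fin n → Matrix (Fin d) (Fin d) ℝ} (hH : ∀ i, (H i)ᵀ = H i) {v : ℝ}
    (hV : ∀ x : Fin d → ℝ, ∑ i, (H i *ᵥ x) ⬝ᵥ (H i *ᵥ x) ≤ v * (x ⬝ᵥ x)) (m : ℕ) :
    ∑ e, trace (RX H e ^ (2 * (m + 1))) ≤ (2 * m + 1) * v * ∑ e, trace (RX H e ^ (2 * m)) := by
  have h1 : ∑ e, trace (RX H e ^ (2 * (m + 1)))
      = ∑ i, ∑ e, sg (e i) * trace (H i * RX H e ^ (2 * m + 1)) := by
    rw [Finset.sum_comm]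
    refine Finset.sum_congr rfl fun e _ => ?_
    rw [show 2 * (m + 1) = (2 * m + 1) + 1 by ring, trace_expand]
  rw [h1]
  refine (Finset.sum_le_sum fun i _ => ibp_sum hH i m).trans ?_
  rw [← Finset.mul_sum, Finset.sum_comm, mul_assoc]
  refine mul_le_mul_of_nonneg_left ?_ (by positivity)
  rw [Finset.mul_sum]
  exact Finset.sum_le_sum fun e _ => sum_trace_le hH hV (RX_transpose hH e) m

/-- **trace moment bound** -/
theorem moment_le {H : Fin n → Matrix (Fin d) (Fin d) ℝ} (hH : ∀ i, (H i)ᵀ = H i) {v : ℝ}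
    (hv : 0 ≤ v)
    (hV : ∀ x : Fin d → ℝ, ∑ i, (H i *ᵥ x) ⬝ᵥ (H i *ᵥ x) ≤ v * (x ⬝ᵥ x)) (m : ℕ) :
    ∑ e, trace (RX H e ^ (2 * m)) ≤ 2 ^ n * ((2 * m * v) ^ m * d) := by
  have key : ∀ m : ℕ, ∑ e, trace (RX H e ^ (2 * m))
      ≤ 2 ^ n * ((∏ j ∈ range m, ((2 * j + 1 : ℝ) * v)) * d) := by
    intro m
    induction m with
    | zero => simp
    | succ m ih =>
      refine (moment_succ hH hV m).trans ?_
      rw [Finset.prod_range_succ]
      have h0 : 0 ≤ (2 * (m : ℝ) + 1) * v := by positivity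
      refine (mul_le_mul_of_nonneg_left ih h0).trans (le_of_eq ?_)
      ring
  refine (key m).trans ?_
  have h1 : ∏ j ∈ range m, ((2 * j + 1 : ℝ) * v) ≤ (2 * m * v) ^ m := by
    have : ∀ j ∈ range m, ((2 * j + 1 : ℝ) * v) ≤ 2 * m * v := by
      intro j hj
      have hj' : (j : ℝ) + 1 ≤ m := by exact_mod_cast Finset.mem_range.1 hj
      refine mul_le_mul_of_nonneg_right ?_ hv
      linarith
    refine (Finset.prod_le_prod (fun j _ => by positivity) this).trans (le_of_eq ?_)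
    simp
  gcongr

/-- the quadratic form of a symmetric matrix is bounded by the trace moment -/
lemma qf_pow_le {X : Matrix (Fin d) (Fin d) ℝ} (hX : Xᵀ = X) {m : ℕ} (hm : 0 < m)
    (y : Fin d → ℝ) : |y ⬝ᵥ (X *ᵥ y)| ≤ (trace (X ^ (2 * m))) ^ (1 / (2 * m : ℝ)) * (y ⬝ᵥ y) := by
  obtain ⟨U, α, hU, hU', rfl⟩ := exists_diag X hX
  have ht : trace ((U * diagonal α * Uᵀ) ^ (2 * m)) = ∑ a, α a ^ (2 * m) := by
    rw [conj_pow hU hU', Matrix.mul_assoc, Matrix.trace_mul_comm, Matrix.mul_assoc, hU,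
      Matrix.mul_one, Matrix.trace_diagonal]
  rw [ht]
  set z : Fin d → ℝ := Uᵀ *ᵥ y with hz
  have h1 : y ⬝ᵥ ((U * diagonal α * Uᵀ) *ᵥ y) = ∑ a, α a * z a ^ 2 := by
    rw [← Matrix.mulVec_mulVec, ← Matrix.mulVec_mulVec, Matrix.dotProduct_mulVec,
      ← Matrix.mulVec_transpose, ← hz]
    simp only [dotProduct, Matrix.mulVec_diagonal]
    exact Finset.sum_congr rfl fun a _ => by ring
  have h2 : y ⬝ᵥ y = ∑ a, z a ^ 2 := by
    have : z ⬝ᵥ z = y ⬝ᵥ y := by
      rw [hz, Matrix.dotProduct_mulVec, ← Matrix.mulVec_transpose, Matrix.transpose_transpose,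
        Matrix.mulVec_mulVec, hU', Matrix.one_mulVec]
    rw [← this]
    simp only [dotProduct]
    exact Finset.sum_congr rfl fun a _ => by ring
  rw [h1, h2]
  set T : ℝ := ∑ a, α a ^ (2 * m) with hT
  have hT0 : 0 ≤ T := Finset.sum_nonneg fun a _ => (even_two_mul m).pow_nonneg _
  have hα : ∀ a, |α a| ≤ T ^ (1 / (2 * m : ℝ)) := by
    intro a
    have h3 : |α a| ^ (2 * m) ≤ T := by
      rw [(even_two_mul m).pow_abs]
      exact Finset.single_le_sum (f := fun a => α a ^ (2 * m))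
        (fun a _ => (even_two_mul m).pow_nonneg _) (Finset.mem_univ a)
    have h4 : (2 * m : ℝ) = ((2 * m : ℕ) : ℝ) := by push_cast; ring
    rw [h4]
    have h5 : |α a| = (|α a| ^ (2 * m)) ^ (1 / ((2 * m : ℕ) : ℝ)) := by
      rw [one_div, Real.pow_rpow_inv_natCast (abs_nonneg _) (by omega)]
    rw [h5]
    exact Real.rpow_le_rpow (by positivity) h3 (by positivity)
  calc |∑ a, α a * z a ^ 2| ≤ ∑ a, |α a * z a ^ 2| := Finset.abs_sum_le_sum_abs _ _
    _ = ∑ a, |α a| * z a ^ 2 := Finset.sum_congr rfl fun a _ => by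
        rw [abs_mul, abs_of_nonneg (sq_nonneg (z a))]
    _ ≤ ∑ a, T ^ (1 / (2 * m : ℝ)) * z a ^ 2 := Finset.sum_le_sum fun a _ =>
        mul_le_mul_of_nonneg_right (hα a) (sq_nonneg _)
    _ = _ := by rw [Finset.mul_sum]

end Pool.Agent.InjP
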