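import Mathlib
import Pool.Agent.InjP.NCK
import Pool.Agent.InjP.Dom

/-!
# The Rademacher bound for symmetric matrices in the injective `ℓ_p` norm, `2 ≤ p ≤ 4`
-/

namespace Pool.Agent.InjP

open Finset Matrix
open Pool.Agent.SymASQ (sg)

variable {d n : ℕ}

lemma mulVec_swap {M : Matrix (Fin d) (Fin d) ℝ} (hM : Mᵀ = M) (x y : Fin d → ℝ) :
    x ⬝ᵥ (M *ᵥ y) = y ⬝ᵥ (M *ᵥ x) := by
  rw [Matrix.dotProduct_mulVec, ← Matrix.mulVec_transpose, hM, dotProduct_comm]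

/-- Cauchy-Schwarz from domination -/
lemma cs_dom {M : Matrix (Fin d) (Fin d) ℝ} (hM : Mᵀ = M) {c : ℝ} {w : Fin d → ℝ}
    (h : ∀ x : Fin d → ℝ, |x ⬝ᵥ (M *ᵥ x)| ≤ c * ∑ k, w k * x k ^ 2) (x y : Fin d → ℝ) :
    (y ⬝ᵥ (M *ᵥ x)) ^ 2 ≤ c ^ 2 * (∑ k, w k * y k ^ 2) * (∑ k, w k * x k ^ 2) := by
  set Qx := ∑ k, w k * x k ^ 2 with hQx
  set Qy := ∑ k, w k * y k ^ 2 with hQy
  have key : ∀ t : ℝ, 0 ≤ (c * Qy) * (t * t) + (-2 * (y ⬝ᵥ (M *ᵥ x))) * t + c * Qx := by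
    intro t
    have h1 := h (x + t • y)
    have h2 := h (x - t • y)
    have e1 : (x + t • y) ⬝ᵥ (M *ᵥ (x + t • y))
        = x ⬝ᵥ (M *ᵥ x) + 2 * t * (y ⬝ᵥ (M *ᵥ x)) + t ^ 2 * (y ⬝ᵥ (M *ᵥ y)) := by
      rw [Matrix.mulVec_add, Matrix.mulVec_smul, add_dotProduct, dotProduct_add, dotProduct_add,
        smul_dotProduct, smul_dotProduct, dotProduct_smul, dotProduct_smul, mulVec_swap hM x y]
      simp only [smul_eq_mul]
      ring
    have e2 : (x - t • y) ⬝ᵥ (M *ᵥ (x - t • y))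
        = x ⬝ᵥ (M *ᵥ x) - 2 * t * (y ⬝ᵥ (M *ᵥ x)) + t ^ 2 * (y ⬝ᵥ (M *ᵥ y)) := by
      rw [Matrix.mulVec_sub, Matrix.mulVec_smul, sub_dotProduct, dotProduct_sub, dotProduct_sub,
        smul_dotProduct, smul_dotProduct, dotProduct_smul, dotProduct_smul, mulVec_swap hM x y]
      simp only [smul_eq_mul]
      ring
    have e3 : ∑ k, w k * (x + t • y) k ^ 2 + ∑ k, w k * (x - t • y) k ^ 2
        = 2 * Qx + 2 * t ^ 2 * Qy := by
      rw [hQx, hQy, Finset.mul_sum, Finset.mul_sum, ← Finset.sum_add_distrib,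
        ← Finset.sum_add_distrib]
      refine Finset.sum_congr rfl fun k _ => ?_
      simp only [Pi.add_apply, Pi.sub_apply, Pi.smul_apply, smul_eq_mul]
      ring
    rw [e1] at h1
    rw [e2] at h2
    have g1 := (abs_le.1 h1).2
    have g2 := (abs_le.1 h2).1
    have e4 : c * ∑ k, w k * (x + t • y) k ^ 2 + c * ∑ k, w k * (x - t • y) k ^ 2
        = c * (2 * Qx + 2 * t ^ 2 * Qy) := by rw [← mul_add, e3]
    nlinarith
  have := discrim_le_zero key
  unfold discrim at this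
  nlinarith

/-- `ℓ_2` versus `ℓ_p` -/
lemma sum_sq_le {p : ℝ} (hp : 2 ≤ p) (hd : 1 ≤ d) (x : Fin d → ℝ) :
    ∑ k, x k ^ 2 ≤ ((d : ℝ) ^ (1 / 2 - 1 / p)) ^ 2 * pn p x ^ 2 := by
  have hp0 : 0 < p := by linarith
  have hd0 : (0 : ℝ) < d := by exact_mod_cast hd
  have h1 := Real.rpow_arith_mean_le_arith_mean_rpow (univ : Finset (Fin d))
    (fun _ => (d : ℝ)⁻¹) (fun k => x k ^ 2)
    (fun _ _ => by positivity) (by simp [hd0.ne']) (fun e _ => by positivity) (p := p / 2)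
    (by linarith)
  have e2 : ∀ k, (x k ^ 2) ^ (p / 2) = |x k| ^ p := by
    intro k
    rw [← sq_abs, ← Real.rpow_natCast, ← Real.rpow_mul (abs_nonneg _)]
    congr 1
    push_cast
    ring
  simp only [e2, ← Finset.mul_sum] at h1
  set S := ∑ k, x k ^ 2 with hS
  set T := ∑ k, |x k| ^ p with hT
  have hS0 : 0 ≤ S := Finset.sum_nonneg fun _ _ => sq_nonneg _
  have hT0 : 0 ≤ T := Finset.sum_nonneg fun _ _ => Real.rpow_nonneg (abs_nonneg _) _
  have hsq : pn p x ^ 2 = T ^ (2 / p) := by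
    unfold pn
    rw [← Real.rpow_natCast, ← Real.rpow_mul hT0]
    congr 1
    push_cast
    ring
  have h3 : (d : ℝ)⁻¹ * S ≤ ((d : ℝ)⁻¹ * T) ^ (2 / p) := by
    have h4 : (d : ℝ)⁻¹ * S = (((d : ℝ)⁻¹ * S) ^ (p / 2)) ^ (2 / p) := by
      rw [← Real.rpow_mul (by positivity)]
      have : p / 2 * (2 / p) = 1 := by field_simp
      rw [this, Real.rpow_one]
    rw [h4]
    exact Real.rpow_le_rpow (by positivity) h1 (by positivity)
  rw [hsq]
  have h5 : ((d : ℝ) ^ (1 / 2 - 1 / p)) ^ 2 = d * ((d : ℝ)⁻¹) ^ (2 / p) := by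
    rw [← Real.rpow_natCast, ← Real.rpow_mul hd0.le, Real.inv_rpow hd0.le, ← Real.rpow_neg hd0.le]
    nth_rw 2 [← Real.rpow_one (d : ℝ)]
    rw [← Real.rpow_add hd0]
    congr 1
    push_cast
    field_simp
    ring
  rw [Real.mul_rpow (by positivity) hT0] at h3
  rw [h5, mul_assoc]
  calc S = d * ((d : ℝ)⁻¹ * S) := by field_simp
    _ ≤ d * (((d : ℝ)⁻¹) ^ (2 / p) * T ^ (2 / p)) := mul_le_mul_of_nonneg_left h3 hd0.le

lemma dot_RX (M : Fin n → Matrix (Fin d) (Fin d) ℝ) (e : Fin n → Bool) (x : Fin d → ℝ) :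
    x ⬝ᵥ (RX M e *ᵥ x) = ∑ i, sg (e i) * (x ⬝ᵥ (M i *ᵥ x)) := by
  unfold RX
  rw [Matrix.sum_mulVec, dotProduct_sum]
  refine Finset.sum_congr rfl fun i _ => ?_
  rw [Matrix.smul_mulVec, dotProduct_smul, smul_eq_mul]

lemma abs_sg (b : Bool) : |sg b| = 1 := by cases b <;> simp [sg]

/-- averaging the trace moment -/
lemma mean_trace {H : Fin n → Matrix (Fin d) (Fin d) ℝ} (hH : ∀ i, (H i)ᵀ = H i)
    (hd : 1 ≤ d)
    (hV : ∀ x : Fin d → ℝ, ∑ i, (H i *ᵥ x) ⬝ᵥ (H i *ᵥ x) ≤ 12 * (x ⬝ᵥ x)) :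
    ∃ m : ℕ, 0 < m ∧ (∀ e, 0 ≤ trace (RX H e ^ (2 * m))) ∧
      ((2 : ℝ) ^ n)⁻¹ * ∑ e, (trace (RX H e ^ (2 * m))) ^ (1 / (2 * m : ℝ))
      ≤ 12 * Real.sqrt (1 + Real.log d) := by
  have hd0 : (1 : ℝ) ≤ d := by exact_mod_cast hd
  have hlog : 0 ≤ Real.log d := Real.log_nonneg hd0
  set m : ℕ := ⌈Real.log d⌉₊ + 1 with hm
  have hm0 : 0 < m := Nat.succ_pos _
  have hmR : (1 : ℝ) ≤ m := by exact_mod_cast hm0
  have hm1 : Real.log d ≤ m := by
    rw [hm]; push_cast; linarith [Nat.le_ceil (Real.log d)]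
  have hm2 : (m : ℝ) ≤ 2 * (1 + Real.log d) := by
    rw [hm]; push_cast
    have := Nat.ceil_lt_add_one hlog
    linarith
  have htr : ∀ e, 0 ≤ trace (RX H e ^ (2 * m)) := by
    intro e
    obtain ⟨U, α, hU, hU', h⟩ := exists_diag _ (RX_transpose hH e)
    rw [h, conj_pow hU hU', Matrix.mul_assoc, Matrix.trace_mul_comm, Matrix.mul_assoc, hU,
      Matrix.mul_one, Matrix.trace_diagonal]
    exact Finset.sum_nonneg fun a _ => (even_two_mul m).pow_nonneg _
  refine ⟨m, hm0, htr, ?_⟩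
  have hmom := moment_le hH (by norm_num : (0 : ℝ) ≤ 12) hV m
  have h2m : (0 : ℝ) < 2 * m := by linarith
  have h1 := Real.rpow_arith_mean_le_arith_mean_rpow (univ : Finset (Fin n → Bool))
    (fun _ => ((2 : ℝ) ^ n)⁻¹) (fun e => (trace (RX H e ^ (2 * m))) ^ (1 / (2 * m : ℝ)))
    (fun _ _ => by positivity) (by simp) (fun e _ => Real.rpow_nonneg (htr e) _)
    (p := 2 * m) (by linarith)
  have h2 : ∀ e, ((trace (RX H e ^ (2 * m))) ^ (1 / (2 * m : ℝ))) ^ (2 * m : ℝ)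
      = trace (RX H e ^ (2 * m)) := by
    intro e
    rw [← Real.rpow_mul (htr e), one_div, inv_mul_cancel₀ h2m.ne', Real.rpow_one]
  simp only [h2, ← Finset.mul_sum] at h1
  set z := ((2 : ℝ) ^ n)⁻¹ * ∑ e, (trace (RX H e ^ (2 * m))) ^ (1 / (2 * m : ℝ)) with hz
  have hz0 : 0 ≤ z := by
    refine mul_nonneg (by positivity) (Finset.sum_nonneg fun e _ => Real.rpow_nonneg (htr e) _)
  have h3 : z ^ (2 * m : ℝ) ≤ (2 * m * 12) ^ m * d := by
    refine h1.trans ?_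
    rw [inv_mul_le_iff₀ (by positivity)]
    exact hmom
  have h4 : z ≤ ((2 * m * 12) ^ m * d) ^ (1 / (2 * m : ℝ)) := by
    have h5 : z = (z ^ (2 * m : ℝ)) ^ (1 / (2 * m : ℝ)) := by
      rw [← Real.rpow_mul hz0, mul_one_div_cancel h2m.ne', Real.rpow_one]
    rw [h5]
    exact Real.rpow_le_rpow (by positivity) h3 (by positivity)
  refine h4.trans ?_
  rw [Real.mul_rpow (by positivity) (by positivity)]
  have h6 : (((2 * m * 12 : ℝ)) ^ m) ^ (1 / (2 * m : ℝ)) = Real.sqrt (2 * m * 12) := by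
    rw [← Real.rpow_natCast, ← Real.rpow_mul (by positivity), Real.sqrt_eq_rpow]
    congr 1
    field_simp
  have h7 : (d : ℝ) ^ (1 / (2 * m : ℝ)) ≤ Real.exp (1 / 2) := by
    rw [Real.rpow_def_of_pos (by linarith)]
    refine Real.exp_le_exp.2 ?_
    rw [mul_one_div, div_le_iff₀ h2m]
    linarith
  have h8 : Real.exp (1 / 2) ≤ 1.7 := by
    have h9 : Real.exp (1 / 2) ^ 2 = Real.exp 1 := by
      rw [← Real.exp_nat_mul]; norm_num
    have h10 := Real.exp_one_lt_d9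
    have h11 := Real.exp_pos (1 / 2)
    nlinarith
  have h12 : Real.sqrt (2 * m * 12) ≤ 7 * Real.sqrt (1 + Real.log d) := by
    have : (7 : ℝ) = Real.sqrt 49 := by
      rw [show (49 : ℝ) = 7 ^ 2 by norm_num, Real.sqrt_sq (by norm_num)]
    rw [this, ← Real.sqrt_mul (by norm_num)]
    refine Real.sqrt_le_sqrt ?_
    linarith
  rw [h6]
  calc Real.sqrt (2 * m * 12) * (d : ℝ) ^ (1 / (2 * m : ℝ))
      ≤ (7 * Real.sqrt (1 + Real.log d)) * 1.7 := by
        refine mul_le_mul h12 (h7.trans h8) (by positivity) (by positivity)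
    _ ≤ 12 * Real.sqrt (1 + Real.log d) := by
        have := Real.sqrt_nonneg (1 + Real.log d)
        linarith

/-- **Rademacher bound.** -/
theorem rad_bound {p : ℝ} (hp : 2 ≤ p) (hp4 : p ≤ 4) (hd : 1 ≤ d)
    {M : Fin n → Matrix (Fin d) (Fin d) ℝ} (hM : ∀ i, (M i)ᵀ = M i) {a : Fin n → ℝ}
    (ha : ∀ i, 0 ≤ a i) (h : ∀ i, ∀ x : Fin d → ℝ, |x ⬝ᵥ (M i *ᵥ x)| ≤ a i * pn p x ^ 2) :
    ∃ N : (Fin n → Bool) → ℝ, (∀ e, 0 ≤ N e) ∧
      (∀ e, ∀ x : Fin d → ℝ, |x ⬝ᵥ (RX M e *ᵥ x)| ≤ N e * pn p x ^ 2) ∧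
      ((2 : ℝ) ^ n)⁻¹ * ∑ e, N e ≤ 24 * Real.sqrt (1 + Real.log d) * (d : ℝ) ^ (1 / 2 - 1 / p)
        * Real.sqrt (∑ i, a i ^ 2) := by
  have hp0 : 0 < p := by linarith
  have hd0 : (0 : ℝ) < d := by exact_mod_cast hd
  set A : ℝ := Real.sqrt (∑ i, a i ^ 2) with hA
  have hA2 : A ^ 2 = ∑ i, a i ^ 2 := Real.sq_sqrt (Finset.sum_nonneg fun _ _ => sq_nonneg _)
  rcases eq_or_lt_of_le (Real.sqrt_nonneg (∑ i, a i ^ 2)) with h0 | h0
  · -- degenerate case
    have hai : ∀ i, a i = 0 := by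
      rw [← hA] at h0
      rw [← h0] at hA2
      intro i
      have h1 : ∑ i, a i ^ 2 = 0 := by rw [← hA2]; norm_num
      have := (Finset.sum_eq_zero_iff_of_nonneg (fun i _ => sq_nonneg (a i))).1 h1 i
        (Finset.mem_univ i)
      exact pow_eq_zero_iff (two_ne_zero) |>.1 this
    refine ⟨fun _ => 0, fun _ => le_rfl, fun e x => ?_, ?_⟩
    · rw [dot_RX, zero_mul]
      refine (Finset.abs_sum_le_sum_abs _ _).trans (Finset.sum_nonpos fun i _ => ?_)
      have := h i x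
      rw [hai i, zero_mul] at this
      rw [abs_mul, abs_sg, one_mul]
      exact this
    · simp only [Finset.sum_const_zero, mul_zero]
      positivity
  rw [← hA] at h0
  choose w hw hdom using fun i => dom hp hp4 (ha i) (h i)
  set δ : ℝ := (d : ℝ) ^ (1 / 2 - 1 / p) with hδ
  have hδ0 : 0 < δ := Real.rpow_pos_of_pos hd0 _
  set D : Fin d → ℝ := fun k => A / δ + (δ / A) * ∑ i, a i ^ 2 * w i k with hD
  have hwsum : ∀ k, 0 ≤ ∑ i, a i ^ 2 * w i k := fun k =>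
    Finset.sum_nonneg fun i _ => mul_nonneg (sq_nonneg _) ((hw i).1 k)
  have hDlow : ∀ k, A / δ ≤ D k := by
    intro k
    have : 0 ≤ (δ / A) * ∑ i, a i ^ 2 * w i k := mul_nonneg (by positivity) (hwsum k)
    simp only [hD]
    linarith
  have hD0 : ∀ k, 0 < D k := fun k => lt_of_lt_of_le (by positivity) (hDlow k)
  -- the quadratic form of `D`
  have hDform : ∀ x : Fin d → ℝ, ∑ k, D k * x k ^ 2
      = (A / δ) * ∑ k, x k ^ 2 + (δ / A) * ∑ i, a i ^ 2 * ∑ k, w i k * x k ^ 2 := by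
    intro x
    have e1 : ∑ i, a i ^ 2 * ∑ k, w i k * x k ^ 2 = ∑ k, (∑ i, a i ^ 2 * w i k) * x k ^ 2 := by
      simp only [Finset.mul_sum, Finset.sum_mul]
      rw [Finset.sum_comm]
      exact Finset.sum_congr rfl fun k _ => Finset.sum_congr rfl fun i _ => by ring
    rw [e1, Finset.mul_sum, Finset.mul_sum, ← Finset.sum_add_distrib]
    refine Finset.sum_congr rfl fun k _ => ?_
    simp only [hD]
    ring
  have hDup : ∀ x : Fin d → ℝ, ∑ k, D k * x k ^ 2 ≤ 2 * A * δ * pn p x ^ 2 := by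
    intro x
    rw [hDform]
    have h1 : (A / δ) * ∑ k, x k ^ 2 ≤ (A / δ) * (δ ^ 2 * pn p x ^ 2) :=
      mul_le_mul_of_nonneg_left (sum_sq_le hp hd x) (by positivity)
    have h2 : ∑ i, a i ^ 2 * ∑ k, w i k * x k ^ 2 ≤ A ^ 2 * pn p x ^ 2 := by
      rw [hA2, Finset.sum_mul]
      exact Finset.sum_le_sum fun i _ => mul_le_mul_of_nonneg_left ((hw i).2 x) (sq_nonneg _)
    have h3 : (δ / A) * ∑ i, a i ^ 2 * ∑ k, w i k * x k ^ 2 ≤ (δ / A) * (A ^ 2 * pn p x ^ 2) :=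
      mul_le_mul_of_nonneg_left h2 (by positivity)
    have e1 : (A / δ) * (δ ^ 2 * pn p x ^ 2) = A * δ * pn p x ^ 2 := by field_simp
    have e2 : (δ / A) * (A ^ 2 * pn p x ^ 2) = A * δ * pn p x ^ 2 := by field_simp
    rw [e1] at h1
    rw [e2] at h3
    linarith
  set s : Fin d → ℝ := fun k => Real.sqrt (D k) with hs
  have hs0 : ∀ k, 0 < s k := fun k => Real.sqrt_pos.2 (hD0 k)
  have hs2 : ∀ k, s k ^ 2 = D k := fun k => Real.sq_sqrt (hD0 k).le
  set B : Fin n → Matrix (Fin d) (Fin d) ℝ :=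
    fun i => Matrix.of fun k l => M i k l / (s k * s l) with hB
  have hBt : ∀ i, (B i)ᵀ = B i := by
    intro i
    ext k l
    have : M i l k = M i k l := by
      have := congrFun (congrFun (hM i) k) l
      simpa using this
    simp only [hB, Matrix.transpose_apply, Matrix.of_apply, this, mul_comm]
  have hBV : ∀ x : Fin d → ℝ, ∑ i, (B i *ᵥ x) ⬝ᵥ (B i *ᵥ x) ≤ 12 * (x ⬝ᵥ x) := by
    intro x
    set u : Fin d → ℝ := fun k => x k / s k with hu
    have hone : ∀ i, (B i *ᵥ x) ⬝ᵥ (B i *ᵥ x)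
        ≤ 12 * ((δ / A) * (a i ^ 2 * ∑ k, w i k * u k ^ 2)) := by
      intro i
      set g : Fin d → ℝ := M i *ᵥ u with hg
      have e1 : ∀ k, (B i *ᵥ x) k = g k / s k := by
        intro k
        simp only [hB, hg, hu, Matrix.mulVec, dotProduct, Matrix.of_apply]
        rw [Finset.sum_div]
        refine Finset.sum_congr rfl fun l _ => ?_
        have := (hs0 k).ne'
        have := (hs0 l).ne'
        field_simp
      set y : Fin d → ℝ := fun k => g k / D k with hy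
      have e2 : (B i *ᵥ x) ⬝ᵥ (B i *ᵥ x) = y ⬝ᵥ (M i *ᵥ u) := by
        rw [← hg]
        simp only [dotProduct, e1, hy]
        refine Finset.sum_congr rfl fun k _ => ?_
        rw [← hs2 k]
        have := (hs0 k).ne'
        field_simp
      set b : ℝ := y ⬝ᵥ (M i *ᵥ u) with hb
      have hcs := cs_dom (hM i) (hdom i) u y
      rw [← hb] at hcs
      have hQy : ∑ k, w i k * y k ^ 2 ≤ (δ / A) * b := by
        have e3 : b = ∑ k, D k * y k ^ 2 := by
          rw [hb, ← hg]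
          simp only [dotProduct, hy]
          refine Finset.sum_congr rfl fun k _ => ?_
          have := (hD0 k).ne'
          field_simp
        rw [e3, Finset.mul_sum]
        refine Finset.sum_le_sum fun k _ => ?_
        have h1 : w i k ≤ 1 := Wt_le_one hp0 (hw i) k
        have h2 : 1 ≤ (δ / A) * D k := by
          have := mul_le_mul_of_nonneg_left (hDlow k) (by positivity : 0 ≤ δ / A)
          have e4 : δ / A * (A / δ) = 1 := by field_simp
          linarith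
        calc w i k * y k ^ 2 ≤ ((δ / A) * D k) * y k ^ 2 :=
              mul_le_mul_of_nonneg_right (h1.trans h2) (sq_nonneg _)
          _ = (δ / A) * (D k * y k ^ 2) := by ring
      have hb0 : 0 ≤ b := by
        rw [← e2]
        exact Finset.sum_nonneg fun k _ => mul_self_nonneg _
      have hQu : 0 ≤ ∑ k, w i k * u k ^ 2 :=
        Finset.sum_nonneg fun k _ => mul_nonneg ((hw i).1 k) (sq_nonneg _)
      have hK : (2 * Real.sqrt 3 * a i) ^ 2 = 12 * a i ^ 2 := by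
        have := Real.sq_sqrt (show (0 : ℝ) ≤ 3 by norm_num)
        nlinarith
      rw [hK] at hcs
      rw [e2]
      rcases eq_or_lt_of_le hb0 with hb1 | hb1
      · rw [← hb1]
        have := sq_nonneg (a i)
        positivity
      · have h5 : b * b ≤ b * (12 * ((δ / A) * (a i ^ 2 * ∑ k, w i k * u k ^ 2))) := by
          have h6 : 12 * a i ^ 2 * (∑ k, w i k * y k ^ 2) * (∑ k, w i k * u k ^ 2)
              ≤ 12 * a i ^ 2 * ((δ / A) * b) * (∑ k, w i k * u k ^ 2) := by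
            gcongr
          nlinarith
        exact le_of_mul_le_mul_left h5 hb1
    refine (Finset.sum_le_sum fun i _ => hone i).trans ?_
    rw [← Finset.mul_sum]
    refine mul_le_mul_of_nonneg_left ?_ (by norm_num)
    rw [← Finset.mul_sum]
    have h1 := hDform u
    have h2 : 0 ≤ (A / δ) * ∑ k, u k ^ 2 :=
      mul_nonneg (by positivity) (Finset.sum_nonneg fun _ _ => sq_nonneg _)
    have h3 : ∑ k, D k * u k ^ 2 = x ⬝ᵥ x := by
      simp only [dotProduct, hu]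
      refine Finset.sum_congr rfl fun k _ => ?_
      rw [← hs2 k]
      have := (hs0 k).ne'
      field_simp
    linarith
  obtain ⟨m, hm0, htr, hmean⟩ := mean_trace hBt hd hBV
  refine ⟨fun e => (trace (RX B e ^ (2 * m))) ^ (1 / (2 * m : ℝ)) * (2 * A * δ),
    fun e => mul_nonneg (Real.rpow_nonneg (htr e) _) (by positivity), fun e x => ?_, ?_⟩
  · set y : Fin d → ℝ := fun k => s k * x k with hy
    have e1 : x ⬝ᵥ (RX M e *ᵥ x) = y ⬝ᵥ (RX B e *ᵥ y) := by
      rw [dot_RX, dot_RX]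
      refine Finset.sum_congr rfl fun i _ => ?_
      congr 1
      simp only [dotProduct, Matrix.mulVec, hB, hy, Matrix.of_apply, Finset.mul_sum]
      refine Finset.sum_congr rfl fun k _ => Finset.sum_congr rfl fun l _ => ?_
      have := (hs0 k).ne'
      have := (hs0 l).ne'
      field_simp
    have e2 : y ⬝ᵥ y = ∑ k, D k * x k ^ 2 := by
      simp only [dotProduct, hy]
      refine Finset.sum_congr rfl fun k _ => ?_
      rw [← hs2 k]
      ring
    have h1 := qf_pow_le (RX_transpose hBt e) hm0 y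
    rw [e1]
    refine h1.trans ?_
    rw [e2, mul_assoc]
    exact mul_le_mul_of_nonneg_left (hDup x) (Real.rpow_nonneg (htr e) _)
  · rw [← Finset.sum_mul, ← mul_assoc]
    calc (((2 : ℝ) ^ n)⁻¹ * ∑ e, (trace (RX B e ^ (2 * m))) ^ (1 / (2 * m : ℝ))) * (2 * A * δ)
        ≤ (12 * Real.sqrt (1 + Real.log d)) * (2 * A * δ) :=
          mul_le_mul_of_nonneg_right hmean (by positivity)
      _ = 24 * Real.sqrt (1 + Real.log d) * δ * A := by ring

end Pool.Agent.InjP
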