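import Mathlib
import Pool.Agent.InjP.RadBound
import Pool.Agent.InjP.Defs

/-!
# The Gaussian bound for `r = 2`, `2 ≤ p ≤ 4`
-/

namespace Pool.Agent.InjP

open Finset MeasureTheory ProbabilityTheory Matrix
open Pool.Agent.SymASQ (sg)

variable {d n : ℕ}

/-- the matrix of a `2`-tensor -/
def toMat (T : (Fin 2 → Fin d) → ℝ) : Matrix (Fin d) (Fin d) ℝ := Matrix.of fun k l => T ![k, l]

lemma pairing_two (T : (Fin 2 → Fin d) → ℝ) (x : Fin d → ℝ) :
    pairing T x = x ⬝ᵥ (toMat T *ᵥ x) := by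
  unfold pairing
  rw [← (finTwoArrowEquiv (Fin d)).symm.sum_comp, Fintype.sum_prod_type]
  simp only [dotProduct, Matrix.mulVec, toMat, Matrix.of_apply, Finset.mul_sum]
  refine Finset.sum_congr rfl fun k _ => Finset.sum_congr rfl fun l _ => ?_
  simp [finTwoArrowEquiv, Fin.prod_univ_two]
  ring

lemma toMat_transpose {T : (Fin 2 → Fin d) → ℝ} (hT : IsSymT T) : (toMat T)ᵀ = toMat T := by
  ext k l
  simp only [Matrix.transpose_apply, toMat, Matrix.of_apply]
  have := hT (Equiv.swap 0 1) ![k, l]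
  rw [← this]
  congr 1
  funext j
  fin_cases j <;> simp

/-- the pointwise (Rademacher) bound -/
lemma sum_sign_le {p : ℝ} (hp : 2 ≤ p) (hp4 : p ≤ 4) (hd : 1 ≤ d)
    {T : Fin n → (Fin 2 → Fin d) → ℝ} (hT : ∀ i, IsSymT (T i)) (g : Fin n → ℝ) :
    ∑ e : Fin n → Bool, injNorm p (∑ i, (sg (e i) * g i) • T i)
      ≤ 2 ^ n * (24 * Real.sqrt (1 + Real.log d) * (d : ℝ) ^ (1 / 2 - 1 / p)
        * Real.sqrt (∑ i, (|g i| * injNorm p (T i)) ^ 2)) := by
  have hp0 : 0 < p := by linarith
  obtain ⟨N, hN0, hN, hmean⟩ := rad_bound (M := fun i => g i • toMat (T i)) hp hp4 hd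
    (fun i => by rw [Matrix.transpose_smul, toMat_transpose (hT i)])
    (a := fun i => |g i| * injNorm p (T i))
    (fun i => mul_nonneg (abs_nonneg _) (injNorm_nonneg hp0 _))
    (fun i x => by
      rw [Matrix.smul_mulVec, dotProduct_smul, smul_eq_mul, abs_mul, ← pairing_two, mul_assoc]
      exact mul_le_mul_of_nonneg_left (pairing_le hp0 (by norm_num) _ _) (abs_nonneg _))
  have h1 : ∑ e, N e ≤ 2 ^ n * (24 * Real.sqrt (1 + Real.log d) * (d : ℝ) ^ (1 / 2 - 1 / p)
        * Real.sqrt (∑ i, (|g i| * injNorm p (T i)) ^ 2)) := by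
    rwa [inv_mul_le_iff₀ (by positivity)] at hmean
  refine le_trans (Finset.sum_le_sum fun e _ => ?_) h1
  refine injNorm_le hp0 (hN0 e) fun x => ?_
  have := hN e x
  rw [dot_RX] at this
  rw [pairing_sum]
  refine le_trans (le_of_eq ?_) this
  congr 1
  refine Finset.sum_congr rfl fun i _ => ?_
  rw [Matrix.smul_mulVec, dotProduct_smul, smul_eq_mul, ← pairing_two]
  ring

/-- **Explicit bound.** -/
theorem explicit_bound {p : ℝ} (hp : 2 ≤ p) (hp4 : p ≤ 4) (hd : 1 ≤ d)
    {T : Fin n → (Fin 2 → Fin d) → ℝ} (hT : ∀ i, IsSymT (T i)) :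
    ∫ g : Fin n → ℝ, injNorm p (∑ i, g i • T i) ∂gauss n
      ≤ 24 * Real.sqrt (1 + Real.log d) * (d : ℝ) ^ (1 / 2 - 1 / p)
        * Real.sqrt (∑ i, injNorm p (T i) ^ 2) := by
  have hp0 : 0 < p := by linarith
  set c : ℝ := 24 * Real.sqrt (1 + Real.log d) * (d : ℝ) ^ (1 / 2 - 1 / p) with hc
  have hc0 : 0 ≤ c := by positivity
  set A : ℝ := Real.sqrt (∑ i, injNorm p (T i) ^ 2) with hA
  have hA2 : A ^ 2 = ∑ i, injNorm p (T i) ^ 2 :=
    Real.sq_sqrt (Finset.sum_nonneg fun _ _ => sq_nonneg _)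
  set F : (Fin n → ℝ) → ℝ := fun g => injNorm p (∑ i, g i • T i) with hF
  have hFi : Integrable F (gauss n) := integrable_injNorm hp0 (by norm_num) T
  have hFc : Continuous F := continuous_injNorm hp0 (by norm_num) T
  -- symmetrisation
  have hsym : ∀ e : Fin n → Bool, ∫ g, F (fun i => sg (e i) * g i) ∂gauss n = ∫ g, F g ∂gauss n := by
    intro e
    have h := measurePreserving_sign (n := n) e
    have h' := integral_map (μ := gauss n) (φ := fun g : Fin n → ℝ => fun i => sg (e i) * g i)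
      h.measurable.aemeasurable (f := F) hFc.aestronglyMeasurable
    rw [h.map_eq] at h'
    exact h'.symm
  have hsymi : ∀ e : Fin n → Bool, Integrable (fun g : Fin n → ℝ => F (fun i => sg (e i) * g i))
      (gauss n) := by
    intro e
    have h := measurePreserving_sign (n := n) e
    exact h.integrable_comp_of_integrable hFi
  have h1 : 2 ^ n * ∫ g, F g ∂gauss n = ∫ g, ∑ e : Fin n → Bool, F (fun i => sg (e i) * g i)
      ∂gauss n := by
    rw [integral_finsetSum _ fun e _ => hsymi e, Finset.sum_congr rfl fun e _ => hsym e]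
    simp
  rcases eq_or_lt_of_le (Real.sqrt_nonneg (∑ i, injNorm p (T i) ^ 2)) with h0 | h0
  · -- degenerate case
    rw [← hA] at h0
    rw [← h0] at hA2
    have h2 : ∑ i, injNorm p (T i) ^ 2 = 0 := by rw [← hA2]; norm_num
    have hz : ∀ i, injNorm p (T i) = 0 := fun i => by
      have := (Finset.sum_eq_zero_iff_of_nonneg (fun i _ => sq_nonneg (injNorm p (T i)))).1 h2 i
        (Finset.mem_univ i)
      exact pow_eq_zero_iff (two_ne_zero) |>.1 this
    rw [← h0, mul_zero]
    refine le_of_eq ?_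
    have : ∀ g, F g = 0 := by
      intro g
      have h3 := injNorm_sum_le hp0 (by norm_num : (2 : ℕ) ≠ 0) T g
      simp only [hz, mul_zero, Finset.sum_const_zero] at h3
      exact le_antisymm h3 (injNorm_nonneg hp0 _)
    change ∫ g, F g ∂gauss n = 0
    simp only [this, integral_zero]
  rw [← hA] at h0
  have hbi : Integrable (fun g : Fin n → ℝ =>
      2 ^ n * (c * (((∑ i, g i ^ 2 * injNorm p (T i) ^ 2) / A + A) / 2))) (gauss n) := by
    refine Integrable.const_mul (Integrable.const_mul (Integrable.div_const (Integrable.add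
      (Integrable.div_const (integrable_finsetSum _ fun i _ =>
        (integrable_eval_sq i).mul_const _) _) (integrable_const _)) _) _) _
  have h2 : ∫ g, ∑ e : Fin n → Bool, F (fun i => sg (e i) * g i) ∂gauss n
      ≤ ∫ g, 2 ^ n * (c * (((∑ i, g i ^ 2 * injNorm p (T i) ^ 2) / A + A) / 2)) ∂gauss n := by
    refine integral_mono (integrable_finsetSum _ fun e _ => hsymi e) hbi fun g => ?_
    refine (sum_sign_le hp hp4 hd hT g).trans ?_
    refine mul_le_mul_of_nonneg_left (mul_le_mul_of_nonneg_left ?_ hc0) (by positivity)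
    have e1 : ∑ i, (|g i| * injNorm p (T i)) ^ 2 = ∑ i, g i ^ 2 * injNorm p (T i) ^ 2 :=
      Finset.sum_congr rfl fun i _ => by rw [mul_pow, sq_abs]
    rw [e1]
    set Y := ∑ i, g i ^ 2 * injNorm p (T i) ^ 2 with hY
    have hY0 : 0 ≤ Y := Finset.sum_nonneg fun _ _ => by positivity
    have h3 : Real.sqrt Y ^ 2 = Y := Real.sq_sqrt hY0
    rw [le_div_iff₀ (by norm_num), div_add' _ _ _ h0.ne', le_div_iff₀ h0]
    nlinarith [sq_nonneg (Real.sqrt Y - A)]
  have h4 : ∫ g, 2 ^ n * (c * (((∑ i, g i ^ 2 * injNorm p (T i) ^ 2) / A + A) / 2)) ∂gauss n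
      = 2 ^ n * (c * A) := by
    rw [integral_const_mul, integral_const_mul, integral_div, integral_add, integral_div,
      integral_finsetSum]
    · simp only [integral_mul_const, integral_eval_sq, one_mul, integral_const,
        probReal_univ, smul_eq_mul]
      rw [← hA2]
      field_simp
      ring
    · exact fun i _ => (integrable_eval_sq i).mul_const _
    · exact Integrable.div_const (integrable_finsetSum _ fun i _ =>
        (integrable_eval_sq i).mul_const _) _
    · exact integrable_const _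
  have h5 : 2 ^ n * ∫ g, F g ∂gauss n ≤ 2 ^ n * (c * A) := by
    rw [h1]; exact h2.trans (le_of_eq h4)
  exact le_of_mul_le_mul_left h5 (by positivity)

/-- `(∗)` holds for `r = 2` and all `2 ≤ p ≤ 4`. -/
theorem star_two {p : ℝ} (hp : 2 ≤ p) (hp4 : p ≤ 4) : Star 2 p := by
  have hp0 : 0 < p := by linarith
  refine ⟨24, 1 / 2, by norm_num, by norm_num, fun d n hd hn T hT =>
    ⟨integrable_injNorm hp0 (by norm_num) T, ?_⟩⟩
  refine (explicit_bound hp hp4 hd hT).trans ?_
  have hd1 : (1 : ℝ) ≤ d := by exact_mod_cast hd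
  have hn1 : (1 : ℝ) ≤ n := by exact_mod_cast hn
  have h1 : 1 + Real.log d ≤ Real.log (Real.exp 1 * d * n) := by
    rw [Real.log_mul (by positivity) (by positivity), Real.log_mul (by positivity) (by positivity),
      Real.log_exp]
    have := Real.log_nonneg hn1
    linarith
  have h2 : Real.sqrt (1 + Real.log d) ≤ Real.log (Real.exp 1 * d * n) ^ (1 / 2 : ℝ) := by
    rw [← Real.sqrt_eq_rpow]
    exact Real.sqrt_le_sqrt h1
  gcongr

end Pool.Agent.InjP
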